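import Mathlib
import Pool.Agent.H410R2.ACIface
import Pool.Agent.H898R2.AC5

/-!
The product of two weights with disjoint sets of positions is a weight with twice as many types.
-/

set_option autoImplicit false

open Finset Pool.Agent.H410R2.AC Pool.Agent.H898R2.AC5

namespace Pool.Agent.Y833.LG

variable {t : ℕ}

/-- one-particle values for doubled types: the first copy lives on `B1`, the second on `B2` -/
noncomputable def dbl (B1 B2 : Finset ℕ) (x : Fin t → ℕ → ℝ) : Fin (t + t) → ℕ → ℝ :=
  fun τ a => Fin.addCases (fun i => if a ∈ B1 then x i a else 0)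
    (fun i => if a ∈ B2 then x i a else 0) τ

theorem term_append (B1 B2 : Finset ℕ) (x : Fin t → ℕ → ℝ) (σ1 σ2 : Fin t → Option ℕ)
    (h1 : ∀ i a, σ1 i = some a → a ∈ B1) (h2 : ∀ i a, σ2 i = some a → a ∈ B2) :
    term (dbl B1 B2 x) (Fin.append σ1 σ2) = term x σ1 * term x σ2 := by
  unfold term
  rw [Fin.prod_univ_add]
  congr 1
  · refine Finset.prod_congr rfl fun i _ => ?_
    rw [Fin.append_left]
    cases h : σ1 i with
    | none => rfl
    | some a =>
      simp only [dbl, Fin.addCases_left]
      rw [if_pos (h1 i a h)]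
  · refine Finset.prod_congr rfl fun i _ => ?_
    rw [Fin.append_right]
    cases h : σ2 i with
    | none => rfl
    | some a =>
      simp only [dbl, Fin.addCases_right]
      rw [if_pos (h2 i a h)]

theorem term_zero {n : ℕ} (x : Fin n → ℕ → ℝ) (σ : Fin n → Option ℕ) (τ : Fin n) (a : ℕ)
    (h : σ τ = some a) (h0 : x τ a = 0) : term x σ = 0 := by
  unfold term
  apply Finset.prod_eq_zero (Finset.mem_univ τ)
  rw [h]
  exact h0

theorem append_mem {B1 B2 : Finset ℕ} (hd : Disjoint B1 B2) {σ1 σ2 : Fin t → Option ℕ}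
    (h1 : σ1 ∈ cfg t B1) (h2 : σ2 ∈ cfg t B2) : Fin.append σ1 σ2 ∈ cfg (t + t) (B1 ∪ B2) := by
  rw [mem_cfg] at h1 h2 ⊢
  constructor
  · intro τ a
    refine Fin.addCases (fun i => ?_) (fun i => ?_) τ
    · intro h
      rw [Fin.append_left] at h
      exact Finset.mem_union_left _ (h1.1 i a h)
    · intro h
      rw [Fin.append_right] at h
      exact Finset.mem_union_right _ (h2.1 i a h)
  · intro τ τ' a
    refine Fin.addCases (fun i => ?_) (fun i => ?_) τ
    · refine Fin.addCases (fun j => ?_) (fun j => ?_) τ'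
      · intro h h'
        rw [Fin.append_left] at h h'
        rw [h1.2 i j a h h']
      · intro h h'
        rw [Fin.append_left] at h
        rw [Fin.append_right] at h'
        exact absurd (h2.1 j a h') (Finset.disjoint_left.1 hd (h1.1 i a h))
    · refine Fin.addCases (fun j => ?_) (fun j => ?_) τ'
      · intro h h'
        rw [Fin.append_right] at h
        rw [Fin.append_left] at h'
        exact absurd (h2.1 i a h) (Finset.disjoint_left.1 hd (h1.1 j a h'))
      · intro h h'
        rw [Fin.append_right] at h h'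
        rw [h2.2 i j a h h']

theorem append_inj {σ1 σ2 ρ1 ρ2 : Fin t → Option ℕ}
    (h : Fin.append σ1 σ2 = Fin.append ρ1 ρ2) : σ1 = ρ1 ∧ σ2 = ρ2 := by
  constructor
  · funext i
    have := congrFun h (Fin.castAdd t i)
    rwa [Fin.append_left, Fin.append_left] at this
  · funext i
    have := congrFun h (Fin.natAdd t i)
    rwa [Fin.append_right, Fin.append_right] at this

theorem WW_dbl {B1 B2 : Finset ℕ} (hd : Disjoint B1 B2) (x : Fin t → ℕ → ℝ) :
    WW (B1 ∪ B2) (fun _ => 1) (dbl B1 B2 x) =
      WW B1 (fun _ => 1) x * WW B2 (fun _ => 1) x := by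
  classical
  unfold WW
  simp only [one_mul]
  rw [Finset.sum_mul_sum, ← Finset.sum_product']
  have e1 : ∑ y ∈ cfg t B1 ×ˢ cfg t B2, term x y.1 * term x y.2 =
      ∑ σ ∈ (cfg t B1 ×ˢ cfg t B2).image
        (fun y : (Fin t → Option ℕ) × (Fin t → Option ℕ) => Fin.append y.1 y.2),
        term (dbl B1 B2 x) σ := by
    rw [Finset.sum_image]
    · refine Finset.sum_congr rfl fun y hy => ?_
      rw [Finset.mem_product, mem_cfg, mem_cfg] at hy
      rw [term_append B1 B2 x y.1 y.2 hy.1.1 hy.2.1]
    · rintro ⟨a, b⟩ _ ⟨c, d⟩ _ h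
      obtain ⟨h1, h2⟩ := append_inj h
      exact Prod.ext h1 h2
  rw [e1]
  symm
  apply Finset.sum_subset
  · intro σ hσ
    rw [Finset.mem_image] at hσ
    obtain ⟨⟨a, b⟩, hab, rfl⟩ := hσ
    rw [Finset.mem_product] at hab
    exact append_mem hd hab.1 hab.2
  · intro σ hσ hn
    by_contra h0
    apply hn
    rw [Finset.mem_image]
    have hL : ∀ i a, σ (Fin.castAdd t i) = some a → a ∈ B1 := by
      intro i a h
      by_contra hc
      exact h0 (term_zero _ _ _ a h (by simp only [dbl, Fin.addCases_left]; rw [if_neg hc]))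
    have hR : ∀ i a, σ (Fin.natAdd t i) = some a → a ∈ B2 := by
      intro i a h
      by_contra hc
      exact h0 (term_zero _ _ _ a h (by simp only [dbl, Fin.addCases_right]; rw [if_neg hc]))
    rw [mem_cfg] at hσ
    refine ⟨(fun i => σ (Fin.castAdd t i), fun i => σ (Fin.natAdd t i)), ?_, ?_⟩
    · rw [Finset.mem_product, mem_cfg, mem_cfg]
      refine ⟨⟨hL, ?_⟩, ⟨hR, ?_⟩⟩
      · intro i j a h h'
        exact Fin.castAdd_injective t t (hσ.2 _ _ a h h')
      · intro i j a h h'
        exact Fin.natAdd_injective t t (hσ.2 _ _ a h h')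
    · funext τ
      refine Fin.addCases (fun i => ?_) (fun i => ?_) τ
      · rw [Fin.append_left]
      · rw [Fin.append_right]

end Pool.Agent.Y833.LG
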