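import Mathlib
import Pool.Agent.H909R2.EN3

/-!
Second moments of the repelling weights with families which depend on the position.

This is the engine statement `SecondW` of helper410 and helper909 (`Pool.Agent.H909R2.EN3`), for
families `S τ a` which may depend on the position `a` as well as on the type `τ`; only the families
of different types at the same position have to be disjoint.
-/

set_option autoImplicit false

open Finset Pool.Agent.H410R2.AC Pool.Agent.H410R2.EN Pool.Agent.H400R2.AC4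
  Pool.Agent.H909R2.EN3

namespace Pool.Agent.Y833.LG

variable {n : ℕ}

/-- the families of a configuration, `{∅}` on absent types -/
def fam (S : Fin n → ℕ → Finset (Finset ℕ)) (σ : Fin n → Option ℕ) (τ : Fin n) :
    Finset (Finset ℕ) := (σ τ).elim {∅} (S τ)

/-- the one-particle values -/
noncomputable def xp (ρ : ℕ → ℕ → ℕ) (P1 : Finset ℕ) (S : Fin n → ℕ → Finset (Finset ℕ))
    (g : Fin n → ℝ) (m : ℕ) (τ : Fin n) (a : ℕ) : ℝ :=
  - g τ * (rg ρ P1 a m * FF ρ (S τ a) (some a) m)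

lemma term_xp (ρ : ℕ → ℕ → ℕ) (P1 : Finset ℕ) (S : Fin n → ℕ → Finset (Finset ℕ))
    (g : Fin n → ℝ) (m : ℕ) (σ : Fin n → Option ℕ) :
    term (xp ρ P1 S g m) σ =
      AA g σ * ((∏ a ∈ pos σ, rg ρ P1 a m) * ZZ ρ (fam S σ) σ m) := by
  rw [← prod_rgo, term, AA, ZZ, ← Finset.prod_mul_distrib, ← Finset.prod_mul_distrib]
  refine Finset.prod_congr rfl (fun τ _ => ?_)
  cases h : σ τ with
  | none => simp [rgo, fam, h, FF_empty]
  | some a =>
    simp only [xp, rgo, fam, h, Option.elim_some, reduceCtorEq, if_false]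

lemma prod_GGp (S : Fin n → ℕ → Finset (Finset ℕ)) (g : Fin n → ℝ)
    (σ : Fin n → Option ℕ) (hi : Inj σ) (v : ℝ) :
    AA g σ * AA g σ * (v ^ (pos σ).card * ∏ t, GG (fam S σ t)) =
      term (fun τ a => g τ ^ 2 * (v * GG (S τ a))) σ := by
  have h2 : v ^ (pos σ).card = ∏ τ, (if σ τ = none then (1 : ℝ) else v) := by
    rw [Finset.prod_ite, Finset.prod_const_one, one_mul, Finset.prod_const, card_pos_eq σ hi]
  rw [h2, AA, term, ← Finset.prod_mul_distrib, ← Finset.prod_mul_distrib,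
    ← Finset.prod_mul_distrib]
  refine Finset.prod_congr rfl (fun τ _ => ?_)
  cases h : σ τ with
  | none => simp [fam, h, GG_empty]
  | some a =>
    simp only [fam, h, Option.elim_some, reduceCtorEq, if_false]
    ring

lemma std_p (ρ : ℕ → ℕ → ℕ) (P B : Finset ℕ) (S : Fin n → ℕ → Finset (Finset ℕ))
    (hSP : ∀ τ a, ∀ R ∈ S τ a, R ⊆ P)
    (hρ : ∀ p ∈ P, ∀ a ∈ B, ρ p a < p)
    (σ : Fin n → Option ℕ) (hσ : σ ∈ cfg n B) : Std ρ P (fam S σ) σ := by
  refine ⟨inj_of_cfg hσ, ?_, ?_, ?_⟩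
  · intro t h
    simp [fam, h]
  · intro t R hR
    cases h : σ t with
    | none =>
      simp only [fam, h, Option.elim_none, Finset.mem_singleton] at hR
      rw [hR]; exact Finset.empty_subset _
    | some a =>
      simp only [fam, h, Option.elim_some] at hR
      exact hSP t a R hR
  · intro p hp a ha
    exact hρ p hp a (pos_sub_of_cfg hσ ha)

lemma defect_p (S : Fin n → ℕ → Finset (Finset ℕ)) (hS0 : ∀ τ a, ∅ ∉ S τ a)
    (hSd : ∀ τ τ' a, τ ≠ τ' → Disjoint (S τ a) (S τ' a))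
    (σ σ' : Fin n → Option ℕ) (hne : σ ≠ σ') :
    Defect (fam S σ) (fam S σ') σ σ' := by
  obtain ⟨τ, hτ⟩ := Function.ne_iff.1 hne
  cases h : σ τ with
  | some a =>
    by_cases ha : a ∈ pos σ'
    · rw [mem_pos] at ha
      obtain ⟨τ', ht⟩ := ha
      right; right
      refine ⟨τ, τ', a, h, ht, ?_⟩
      simp only [fam, h, ht, Option.elim_some]
      apply hSd
      rintro rfl
      exact hτ (h.trans ht.symm)
    · left
      refine ⟨τ, a, h, ha, ?_⟩
      simp only [fam, h, Option.elim_some]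
      exact hS0 τ a
  | none =>
    cases h' : σ' τ with
    | none => exact absurd (h.trans h'.symm) hτ
    | some a =>
      by_cases ha : a ∈ pos σ
      · rw [mem_pos] at ha
        obtain ⟨τ', ht⟩ := ha
        right; right
        refine ⟨τ', τ, a, ht, h', ?_⟩
        simp only [fam, h', ht, Option.elim_some]
        apply hSd
        rintro rfl
        exact hτ (ht.trans h'.symm)
      · right; left
        refine ⟨τ, a, h', ha, ?_⟩
        simp only [fam, h', Option.elim_some]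
        exact hS0 τ a

/-- second moments, with position dependent families -/
theorem main_pos (hcm : CountMaps) (n : ℕ) (C : ℝ) (KM K : ℕ) (hC : 1 ≤ C)
    (hM : MomK n KM) (hKM : KM ≤ K) (hKe : 2 * n + KM ≤ K)
    (hKc : C ^ (2 * n) * (1 + 2 * n + C) ^ (2 * n) * (KM * C ^ KM) ≤ K)
    (b J z0 D0 : ℕ) (P1 P2 B : Finset ℕ) (ρ : ℕ → ℕ → ℕ) (κ : ℕ → ℕ → ℝ) (e : ℕ → ℕ)
    (w : ℕ → ℝ) (M : ℕ) (A : ℝ) (err : Finset ℕ → ℝ) (S : Fin n → ℕ → Finset (Finset ℕ))
    (g : Fin n → ℝ) (Y : Fin n → ℕ) (V δ : ℝ)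
    (hset : Setup K b J z0 D0 P1 P2 B ρ κ e w M A err)
    (hD : (2 ^ 2 ^ J) ^ (K * b) * (∏ τ, Y τ) ^ 2 ≤ D0) (hV : 0 < V) (hV1 : V ≤ 1)
    (hδ1 : δ ≤ 1) (hPi : Pi1 P2 ≤ C / V) (hB : (B.card : ℝ) * V1 P1 ≤ C / V)
    (hg : ∀ τ, 0 ≤ g τ ∧ g τ ≤ C)
    (hSP : ∀ τ a, ∀ R ∈ S τ a, R ⊆ P2) (hS0 : ∀ τ a, ∅ ∉ S τ a)
    (hSd : ∀ τ τ' a, τ ≠ τ' → Disjoint (S τ a) (S τ' a))
    (hdel : ∀ U ⊆ B, U.card ≤ 2 * n → dl e ρ (P1 ∪ P2) U ≤ δ)
    (hY : ∀ τ, 1 ≤ Y τ ∧ ∀ a, ∀ R ∈ S τ a, ∏ p ∈ R, p ≤ Y τ)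
    (c : (Fin n → Option ℕ) → ℝ) (hc : ∀ σ, |c σ| ≤ 1) :
    |∑ m ∈ range M, w m * WW B c (xp ρ P1 S g m) ^ 2 -
      A * ∑ σ ∈ cfg n B, c σ ^ 2 * term (fun τ a => g τ ^ 2 * (V1 P1 * GG (S τ a))) σ| ≤
    EF n K b J B.card A V δ (ET K (P1 ∪ P2) D0 err) := by
  classical
  obtain ⟨hKb, hKz, hP1, hP2, hdens, hw, hA, hE, hρ⟩ := hset
  have hPP : ∀ p ∈ P1 ∪ P2, p.Prime := by
    intro p hp
    rcases Finset.mem_union.1 hp with h | h
    · exact (hP1 p h).1
    · exact (hP2 p h).1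
  have hρ1 : ∀ p ∈ P1, ∀ a ∈ B, ρ p a < p := fun p hp => hρ p (Finset.mem_union_left _ hp)
  have hρ2 : ∀ p ∈ P2, ∀ a ∈ B, ρ p a < p := fun p hp => hρ p (Finset.mem_union_right _ hp)
  have hP1' : ∀ p ∈ P1, p.Prime := fun p hp => (hP1 p hp).1
  have hP2' : ∀ p ∈ P2, p.Prime := fun p hp => (hP2 p hp).1
  have hv := V1_nonneg P1 hP1'
  have hQ0 := Pi1_nonneg P2 hP2'
  have hET0 := ET_nonneg hE hPP KM
  have hETm := ET_mono hE hPP hKM
  have hδ : 0 ≤ δ :=
    le_trans (dl_nonneg e ρ (P1 ∪ P2) ∅ hPP) (hdel ∅ (Finset.empty_subset _) (by simp))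
  set v : ℝ := V1 P1 with hvdef
  set RR : (Fin n → Option ℕ) → ℕ → ℝ := fun σ m => ∏ a ∈ pos σ, rg ρ P1 a m with hRR
  set ZS : (Fin n → Option ℕ) → ℕ → ℝ := fun σ m => ZZ ρ (fam S σ) σ m with hZS
  set MX : (Fin n → Option ℕ) → (Fin n → Option ℕ) → ℝ :=
    fun σ σ' => MM ρ P1 w M (fam S σ) (fam S σ') σ σ' with hMdef
  set D : (Fin n → Option ℕ) → (Fin n → Option ℕ) → ℝ :=
    fun σ σ' => if σ = σ' then A * v ^ (pos σ ∪ pos σ').card *
      ∏ t, GG (fam S σ t) else 0 with hD'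
  -- expansion of the square
  have e1 : ∑ m ∈ range M, w m * WW B c (xp ρ P1 S g m) ^ 2 =
      ∑ σ ∈ cfg n B, ∑ σ' ∈ cfg n B, (c σ * AA g σ * (c σ' * AA g σ')) * MX σ σ' := by
    have e0 : ∀ m, w m * WW B c (xp ρ P1 S g m) ^ 2 =
        ∑ σ ∈ cfg n B, ∑ σ' ∈ cfg n B, (c σ * AA g σ * (c σ' * AA g σ')) *
          (w m * ((∏ a ∈ pos σ ∪ pos σ', rg ρ P1 a m) * (ZS σ m * ZS σ' m))) := by
      intro m
      have : WW B c (xp ρ P1 S g m) =
          ∑ σ ∈ cfg n B, c σ * AA g σ * (RR σ m * ZS σ m) := by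
        rw [WW]
        refine Finset.sum_congr rfl (fun σ _ => ?_)
        rw [term_xp, hZS, hRR]; ring
      rw [this, sq, Finset.sum_mul_sum, Finset.mul_sum]
      refine Finset.sum_congr rfl (fun σ _ => ?_)
      rw [Finset.mul_sum]
      refine Finset.sum_congr rfl (fun σ' _ => ?_)
      rw [← prod_rg_union]
      simp only [hRR]
      ring
    rw [Finset.sum_congr rfl (fun m _ => e0 m), Finset.sum_comm]
    refine Finset.sum_congr rfl (fun σ _ => ?_)
    rw [Finset.sum_comm]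
    refine Finset.sum_congr rfl (fun σ' _ => ?_)
    rw [hMdef, ← Finset.mul_sum]
    rfl
  have e2 : A * ∑ σ ∈ cfg n B, c σ ^ 2 * term (fun τ a => g τ ^ 2 * (v * GG (S τ a))) σ =
      ∑ σ ∈ cfg n B, ∑ σ' ∈ cfg n B, (c σ * AA g σ * (c σ' * AA g σ')) * D σ σ' := by
    rw [Finset.mul_sum]
    refine Finset.sum_congr rfl (fun σ hσ => ?_)
    rw [Finset.sum_eq_single_of_mem σ hσ (fun σ' _ h => by simp [hD', Ne.symm h])]
    have := prod_GGp S g σ (inj_of_cfg hσ) v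
    simp only [hD', if_true, Finset.union_self]
    calc A * (c σ ^ 2 * term (fun τ a => g τ ^ 2 * (v * GG (S τ a))) σ)
        = A * c σ ^ 2 * (term (fun τ a => g τ ^ 2 * (v * GG (S τ a))) σ) := by ring
      _ = _ := by rw [← this]; ring
  rw [e1, e2, ← Finset.sum_sub_distrib]
  have hbb : (0 : ℝ) ≤ (1 / 2 : ℝ) ^ b := by positivity
  have hexp0 : 0 ≤ Real.exp (KM * δ) - 1 + (1 / 2 : ℝ) ^ b := by
    have := Real.one_le_exp (x := (KM : ℝ) * δ) (by positivity)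
    linarith
  have hexp : Real.exp (KM * δ) - 1 + (1 / 2 : ℝ) ^ b ≤
      Real.exp (K * δ) - 1 + (1 / 2 : ℝ) ^ b := by
    have h1 : (KM : ℝ) * δ ≤ K * δ := mul_le_mul_of_nonneg_right (by exact_mod_cast hKM) hδ
    have := Real.exp_le_exp.2 h1
    linarith
  have hCV : 0 ≤ C / V := by positivity
  have hPk : Pi1 P2 ^ KM ≤ (C / V) ^ KM := pow_le_pow_left₀ hQ0 hPi _
  have hJE : 0 ≤ ((J : ℝ) + 2) * ET KM (P1 ∪ P2) D0 err := by positivity
  -- per pair
  have e3 : ∀ σ ∈ cfg n B, ∀ σ' ∈ cfg n B,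
      |(c σ * AA g σ * (c σ' * AA g σ')) * MX σ σ' -
        (c σ * AA g σ * (c σ' * AA g σ')) * D σ σ'| ≤
      (C ^ (2 * n) * (A * (KM * (C / V) ^ KM *
        (Real.exp (KM * δ) - 1 + (1 / 2 : ℝ) ^ b)))) * v ^ (pos σ ∪ pos σ').card +
      C ^ (2 * n) * (KM * (C / V) ^ KM * (((J : ℝ) + 2) * ET KM (P1 ∪ P2) D0 err)) := by
    intro σ hσ σ' hσ'
    have hst := std_p ρ P2 B S hSP hρ2 σ hσ
    have hst' := std_p ρ P2 B S hSP hρ2 σ' hσ'
    have hRb : ∀ σ : Fin n → Option ℕ, ∀ R ∈ Fintype.piFinset (fam S σ),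
        ∏ t, ∏ p ∈ R t, p ≤ ∏ τ, Y τ := by
      intro σ R hR
      rw [Fintype.mem_piFinset] at hR
      refine Finset.prod_le_prod' (fun τ _ => ?_)
      have h1 := hR τ
      cases h : σ τ with
      | none =>
        simp only [fam, h, Option.elim_none, Finset.mem_singleton] at h1
        rw [h1, Finset.prod_empty]
        exact (hY τ).1
      | some a =>
        simp only [fam, h, Option.elim_some] at h1
        exact (hY τ).2 a _ h1
    have hUB : pos σ ∪ pos σ' ⊆ B :=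
      Finset.union_subset (pos_sub_of_cfg hσ) (pos_sub_of_cfg hσ')
    have hdel' : dl e ρ (P1 ∪ P2) (pos σ ∪ pos σ') ≤ δ := by
      apply hdel _ hUB
      have h3 := Finset.card_union_le (pos σ) (pos σ')
      have h4 := card_pos_le_n σ
      have h5 := card_pos_le_n σ'
      omega
    have hDD : (2 ^ 2 ^ J) ^ (KM * b) * (∏ τ, Y τ) ^ 2 ≤ D0 := by
      refine le_trans (Nat.mul_le_mul_right _ ?_) hD
      exact Nat.pow_le_pow_right (by positivity) (Nat.mul_le_mul_right _ hKM)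
    have hmm := hM (Fin n) (by simp) b J z0 D0 ((∏ τ, Y τ) ^ 2) P1 P2 ρ κ e w M A err
      (fam S σ) (fam S σ') σ σ' δ (hKM.trans hKb) (hKM.trans hKz) hP1 hP2
      hdens hw hA hE hDD
      (fun R hR R' hR' => by
        rw [sq]
        exact Nat.mul_le_mul (hRb σ R hR) (hRb σ' R' hR'))
      hst hst' (fun p hp a ha => hρ1 p hp a (hUB ha)) hdel' hδ1
    have hMD : |MX σ σ' - D σ σ'| ≤
        EE KM b J P2 A (v ^ (pos σ ∪ pos σ').card) δ
          (ET KM (P1 ∪ P2) D0 err) := by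
      by_cases h : σ = σ'
      · subst h
        have := hmm.2 rfl rfl
        simp only [hMdef, hD', if_true]
        exact this
      · have := hmm.1 (defect_p S hS0 hSd σ σ' h)
        simp only [hMdef, hD', if_neg h, sub_zero]
        exact this
    rw [← mul_sub, abs_mul]
    have hcA : |c σ * AA g σ * (c σ' * AA g σ')| ≤ C ^ (2 * n) := by
      rw [abs_mul, abs_mul, abs_mul]
      have h1 := hc σ
      have h2 := hc σ'
      have h3 : |c σ| * |AA g σ| ≤ C ^ n := by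
        have := mul_le_mul_of_nonneg_right h1 (abs_nonneg (AA g σ))
        have h5 := abs_AA_le2 g C hC hg σ
        linarith
      have h4 : |c σ'| * |AA g σ'| ≤ C ^ n := by
        have := mul_le_mul_of_nonneg_right h2 (abs_nonneg (AA g σ'))
        have h5 := abs_AA_le2 g C hC hg σ'
        linarith
      rw [two_mul, pow_add]
      exact mul_le_mul h3 h4 (by positivity) (by positivity)
    refine (mul_le_mul hcA hMD (abs_nonneg _) (by positivity)).trans ?_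
    rw [EE, mul_add]
    refine add_le_add ?_ ?_
    · calc C ^ (2 * n) * (A * (v ^ (pos σ ∪ pos σ').card) *
            (KM * Pi1 P2 ^ KM * (Real.exp (KM * δ) - 1 + (1 / 2 : ℝ) ^ b)))
          ≤ C ^ (2 * n) * (A * (v ^ (pos σ ∪ pos σ').card) *
            (KM * (C / V) ^ KM * (Real.exp (KM * δ) - 1 + (1 / 2 : ℝ) ^ b))) := by gcongr
        _ = _ := by ring
    · gcongr
  have hcardc : ((cfg n B).card : ℝ) ≤ (B.card + 1 : ℝ) ^ n := by
    have h1 := card_cfg_le (n := n) B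
    have h2 : ((cfg n B).card : ℝ) ≤ ((B.card + 1 : ℕ) : ℝ) ^ n := by exact_mod_cast h1
    refine h2.trans (pow_le_pow_left₀ (by positivity) ?_ _)
    push_cast
    exact le_rfl
  have hsp := sum_pairs (n := n) hcm B (C / V) v (V1_pos P1 hP1') hB
  have hL1 : (1 : ℝ) ≤ (1 + 2 * n + C / V) ^ (2 * n) := by
    refine one_le_pow₀ ?_
    have : (0 : ℝ) ≤ n := by positivity
    linarith
  have hconst : C ^ (2 * n) * (KM * (C / V) ^ KM) * (1 + 2 * n + C / V) ^ (2 * n) ≤ K / V ^ K := by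
    have h1 : (1 + 2 * n + C / V : ℝ) ≤ (1 + 2 * n + C) / V := by
      rw [le_div_iff₀ hV, add_mul, div_mul_cancel₀ _ hV.ne']
      have : (1 + 2 * n : ℝ) * V ≤ (1 + 2 * n) * 1 :=
        mul_le_mul_of_nonneg_left hV1 (by positivity)
      linarith
    have h2 : (1 + 2 * n + C / V : ℝ) ^ (2 * n) ≤ ((1 + 2 * n + C) / V) ^ (2 * n) :=
      pow_le_pow_left₀ (by positivity) h1 _
    calc C ^ (2 * n) * (KM * (C / V) ^ KM) * (1 + 2 * n + C / V) ^ (2 * n)
        ≤ C ^ (2 * n) * (KM * (C / V) ^ KM) * ((1 + 2 * n + C) / V) ^ (2 * n) := by gcongr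
      _ = (C ^ (2 * n) * (1 + 2 * n + C) ^ (2 * n) * (KM * C ^ KM)) / V ^ (2 * n + KM) := by
          rw [div_pow, div_pow, pow_add]
          field_simp
      _ ≤ K / V ^ (2 * n + KM) := by gcongr
      _ ≤ K / V ^ K := by
          refine div_le_div_of_nonneg_left (by positivity) (by positivity) ?_
          exact pow_le_pow_of_le_one hV.le hV1 hKe
  have hconst2 : C ^ (2 * n) * (KM * (C / V) ^ KM) ≤ K / V ^ K := by
    refine le_trans ?_ hconst
    exact le_mul_of_one_le_right (by positivity) hL1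
  calc |∑ σ ∈ cfg n B, (∑ σ' ∈ cfg n B, (c σ * AA g σ * (c σ' * AA g σ')) * MX σ σ' -
        ∑ σ' ∈ cfg n B, (c σ * AA g σ * (c σ' * AA g σ')) * D σ σ')|
      ≤ ∑ σ ∈ cfg n B, ∑ σ' ∈ cfg n B, |(c σ * AA g σ * (c σ' * AA g σ')) * MX σ σ' -
          (c σ * AA g σ * (c σ' * AA g σ')) * D σ σ'| := by
        refine (Finset.abs_sum_le_sum_abs _ _).trans (Finset.sum_le_sum (fun σ _ => ?_))
        rw [← Finset.sum_sub_distrib]
        exact Finset.abs_sum_le_sum_abs _ _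
    _ ≤ ∑ σ ∈ cfg n B, ∑ σ' ∈ cfg n B,
        ((C ^ (2 * n) * (A * (KM * (C / V) ^ KM *
        (Real.exp (KM * δ) - 1 + (1 / 2 : ℝ) ^ b)))) * v ^ (pos σ ∪ pos σ').card +
        C ^ (2 * n) * (KM * (C / V) ^ KM * (((J : ℝ) + 2) * ET KM (P1 ∪ P2) D0 err))) :=
        Finset.sum_le_sum (fun σ hσ => Finset.sum_le_sum (fun σ' hσ' => e3 σ hσ σ' hσ'))
    _ = (C ^ (2 * n) * (A * (KM * (C / V) ^ KM *
        (Real.exp (KM * δ) - 1 + (1 / 2 : ℝ) ^ b)))) *
          (∑ σ ∈ cfg n B, ∑ σ' ∈ cfg n B, v ^ (pos σ ∪ pos σ').card) +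
        (cfg n B).card * ((cfg n B).card *
          (C ^ (2 * n) * (KM * (C / V) ^ KM * (((J : ℝ) + 2) * ET KM (P1 ∪ P2) D0 err)))) := by
        simp only [Finset.sum_add_distrib, Finset.sum_const, nsmul_eq_mul, ← Finset.mul_sum]
    _ ≤ (C ^ (2 * n) * (A * (KM * (C / V) ^ KM *
        (Real.exp (KM * δ) - 1 + (1 / 2 : ℝ) ^ b)))) * (1 + 2 * n + C / V) ^ (2 * n) +
        (B.card + 1 : ℝ) ^ n * ((B.card + 1 : ℝ) ^ n *
          (C ^ (2 * n) * (KM * (C / V) ^ KM * (((J : ℝ) + 2) * ET KM (P1 ∪ P2) D0 err)))) := by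
        gcongr
    _ = A *
          ((C ^ (2 * n) * (KM * (C / V) ^ KM) * (1 + 2 * n + C / V) ^ (2 * n)) *
            (Real.exp (KM * δ) - 1 + (1 / 2 : ℝ) ^ b)) +
        (C ^ (2 * n) * (KM * (C / V) ^ KM)) * (B.card + 1 : ℝ) ^ (2 * n) *
          (((J : ℝ) + 2) * ET KM (P1 ∪ P2) D0 err) := by ring
    _ ≤ A *
          ((K / V ^ K) * (Real.exp (K * δ) - 1 + (1 / 2 : ℝ) ^ b)) +
        (K / V ^ K) * (B.card + 1 : ℝ) ^ (2 * n + 2) *
          (((J : ℝ) + 2) * ET K (P1 ∪ P2) D0 err) := by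
        have hbc : (1 : ℝ) ≤ B.card + 1 := by
          have : (0 : ℝ) ≤ B.card := by positivity
          linarith
        have hpw : (B.card + 1 : ℝ) ^ (2 * n) ≤ (B.card + 1 : ℝ) ^ (2 * n + 2) :=
          pow_le_pow_right₀ hbc (by omega)
        gcongr

end Pool.Agent.Y833.LG
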