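import Pool.Agent.H361R2.PP.Asm1
import Pool.Agent.Y833.LG.Pos
import Pool.Agent.Y833.LG.Dbl

/-!
The correlation of the squares of two weights with the same families and disjoint sets of
positions: pointwise form.
-/

set_option autoImplicit false

open Finset

namespace Pool.Agent.Y833.LG

open Pool.Agent.H361R2.PP
open Pool.Agent.H410R2
open Pool.Agent.H372R2.PPSM4

variable {t : ℕ}

/-- the doubled families -/
def SS2 (B1 B2 : Finset ℕ) (S : Fin t → Finset (Finset ℕ)) (τ : Fin (t + t)) (a : ℕ) :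
    Finset (Finset ℕ) :=
  Fin.addCases (fun i => if a ∈ B1 then S i else ∅) (fun i => if a ∈ B2 then S i else ∅) τ

theorem SS2_left (B1 B2 : Finset ℕ) (S : Fin t → Finset (Finset ℕ)) (i : Fin t) (a : ℕ) :
    SS2 B1 B2 S (Fin.castAdd t i) a = if a ∈ B1 then S i else ∅ := by
  simp only [SS2, Fin.addCases_left]

theorem SS2_right (B1 B2 : Finset ℕ) (S : Fin t → Finset (Finset ℕ)) (i : Fin t) (a : ℕ) :
    SS2 B1 B2 S (Fin.natAdd t i) a = if a ∈ B2 then S i else ∅ := by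
  simp only [SS2, Fin.addCases_right]

theorem SS2_mem {B1 B2 : Finset ℕ} {S : Fin t → Finset (Finset ℕ)} {τ : Fin (t + t)} {a : ℕ}
    {R : Finset ℕ} (h : R ∈ SS2 B1 B2 S τ a) : ∃ i, R ∈ S i := by
  revert h
  refine Fin.addCases (fun i => ?_) (fun i => ?_) τ
  · rw [SS2_left]
    split_ifs
    · exact fun h => ⟨i, h⟩
    · exact fun h => absurd h (Finset.notMem_empty _)
  · rw [SS2_right]
    split_ifs
    · exact fun h => ⟨i, h⟩
    · exact fun h => absurd h (Finset.notMem_empty _)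

theorem SS2_disj {B1 B2 : Finset ℕ} (hd : Disjoint B1 B2) {S : Fin t → Finset (Finset ℕ)}
    (hS : ∀ τ τ', τ ≠ τ' → Disjoint (S τ) (S τ')) (τ τ' : Fin (t + t)) (a : ℕ) (hne : τ ≠ τ') :
    Disjoint (SS2 B1 B2 S τ a) (SS2 B1 B2 S τ' a) := by
  revert hne
  refine Fin.addCases (fun i => ?_) (fun i => ?_) τ
  · refine Fin.addCases (fun j => ?_) (fun j => ?_) τ'
    · intro hne
      rw [SS2_left, SS2_left]
      split_ifs
      · exact hS i j (fun h => hne (by rw [h]))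
      · exact Finset.disjoint_empty_left _
    · intro _
      rw [SS2_left, SS2_right]
      by_cases h1 : a ∈ B1
      · rw [if_neg (Finset.disjoint_left.1 hd h1)]
        exact Finset.disjoint_empty_right _
      · rw [if_neg h1]
        exact Finset.disjoint_empty_left _
  · refine Fin.addCases (fun j => ?_) (fun j => ?_) τ'
    · intro _
      rw [SS2_left, SS2_right]
      by_cases h1 : a ∈ B1
      · rw [if_neg (Finset.disjoint_left.1 hd h1)]
        exact Finset.disjoint_empty_left _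
      · rw [if_neg h1]
        exact Finset.disjoint_empty_right _
    · intro hne
      rw [SS2_right, SS2_right]
      split_ifs
      · exact hS i j (fun h => hne (by rw [h]))
      · exact Finset.disjoint_empty_left _

theorem FF_none (ρ : ℕ → ℕ → ℕ) (o : Option ℕ) (m : ℕ) :
    AC.FF ρ (∅ : Finset (Finset ℕ)) o m = 0 := by
  simp [AC.FF]

theorem GG_none : AC.GG (∅ : Finset (Finset ℕ)) = 0 := by
  simp [AC.GG]

theorem xp_dbl (ρ : ℕ → ℕ → ℕ) (P : Finset ℕ) (B1 B2 : Finset ℕ)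
    (S : Fin t → Finset (Finset ℕ)) (g : Fin t → ℝ) (m : ℕ) :
    xp ρ P (SS2 B1 B2 S) (Fin.append g g) m = dbl B1 B2 (EN.xx ρ P S g m) := by
  funext τ a
  refine Fin.addCases (fun i => ?_) (fun i => ?_) τ
  · simp only [xp, dbl, SS2_left, Fin.append_left, Fin.addCases_left, EN.xx]
    split_ifs
    · rfl
    · rw [FF_none]; ring
  · simp only [xp, dbl, SS2_right, Fin.append_right, Fin.addCases_right, EN.xx]
    split_ifs
    · rfl
    · rw [FF_none]; ring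

theorem gg_dbl (v : ℝ) (B1 B2 : Finset ℕ) (S : Fin t → Finset (Finset ℕ)) (g : Fin t → ℝ) :
    (fun (τ : Fin (t + t)) (a : ℕ) => (Fin.append g g) τ ^ 2 * (v * AC.GG (SS2 B1 B2 S τ a))) =
      dbl B1 B2 (fun τ _ => g τ ^ 2 * (v * AC.GG (S τ))) := by
  funext τ a
  refine Fin.addCases (fun i => ?_) (fun i => ?_) τ
  · simp only [dbl, SS2_left, Fin.append_left, Fin.addCases_left]
    split_ifs
    · rfl
    · rw [GG_none]; ring
  · simp only [dbl, SS2_right, Fin.append_right, Fin.addCases_right]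
    split_ifs
    · rfl
    · rw [GG_none]; ring

/-- the correlation of two squares, for one set of integers -/
def PBody (t K : ℕ) : Prop :=
  ∀ (o : Option ℕ) (δ : ℝ) (X b J D0 : ℕ) (P2' : Finset ℕ) (S : Finset ℕ) (Ω : ℝ)
    (Er : Finset ℕ → ℝ) (u : Fin t → ℝ) (D : Dat t u 1 δ X) (B1 B2 : Finset ℕ) (Y : Fin t → ℕ)
    (V d E : ℝ),
    J = JJ δ X → K ≤ b → K ≤ HH X → HH X < 2 ^ 2 ^ J → 1 ≤ J →
    (∀ p ∈ P2', p.Prime ∧ 2 ^ 2 ^ J ≤ p) → (∀ τ, ∀ R ∈ D.S τ, R ⊆ P2' ∧ ∏ p ∈ R, p ≤ Y τ) →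
    (∀ τ, 1 ≤ Y τ) →
    0 ≤ Ω → Eqd o (P1 (HH X) J ∪ P2') S Ω Er →
    ∑ T ∈ (P1 (HH X) J ∪ P2').powerset.filter (fun T : Finset ℕ => ∏ p ∈ T, p ≤ D0),
      (K : ℝ) ^ T.card * Er T ≤ E →
    (2 ^ 2 ^ J) ^ (K * b) * (∏ τ, Y τ) ^ 4 ≤ D0 → 0 < V → V ≤ 1 → d ≤ 1 →
    AC.Pi1 P2' ≤ 1 / V → ((B1 ∪ B2).card : ℝ) * VV δ X ≤ 1 / V →
    (∀ U ⊆ B1 ∪ B2, U.card ≤ 4 * t → EN.dl (ee o) rho (P1 (HH X) J ∪ P2') U ≤ d) →
    Disjoint B1 B2 → (∀ a, D.cf a = -1) →
    |∑ n ∈ S, (AC.WW B1 (fun _ => 1) (xx D n) * AC.WW B2 (fun _ => 1) (xx D n)) ^ 2 -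
      Ω * (ZZ D B1 (fun _ => 1) * ZZ D B2 (fun _ => 1))| ≤
      EN.EF (t + t) K b J (B1 ∪ B2).card Ω V d E

theorem momK_final (n : ℕ) : ∃ K : ℕ, 1 ≤ K ∧ Pool.Agent.H909R2.EN3.MomK n K :=
  (Pool.Agent.H602R2.momW_of (Pool.Agent.H488R2.EN2a.expandW_of Pool.Agent.H20R2.fLem)
      Pool.Agent.H911R2.EN.sumW Pool.Agent.H415R2.ACLocal.localSum) n

theorem ZZ_WW {u : Fin t → ℝ} {c0 δ : ℝ} {X : ℕ} (D : Dat t u c0 δ X) (B : Finset ℕ) :
    ZZ D B (fun _ => 1) = AC.WW B (fun _ => 1) (qq D) := by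
  unfold ZZ AC.WW
  refine Finset.sum_congr rfl fun σ _ => ?_
  ring

theorem pBody (t : ℕ) : ∃ K : ℕ, 1 ≤ K ∧ PBody t K := by
  obtain ⟨KM, hKM1, hM⟩ := momK_final (t + t)
  obtain ⟨K0, hK0⟩ := exists_nat_ge ((1 : ℝ) ^ (2 * (t + t)) *
    (1 + 2 * ((t + t : ℕ) : ℝ) + 1) ^ (2 * (t + t)) * (KM * (1 : ℝ) ^ KM))
  refine ⟨K0 + (2 * (t + t) + KM), by omega, ?_⟩
  set K : ℕ := K0 + (2 * (t + t) + KM) with hKdef
  have hKc : (1 : ℝ) ^ (2 * (t + t)) * (1 + 2 * ((t + t : ℕ) : ℝ) + 1) ^ (2 * (t + t)) *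
      (KM * (1 : ℝ) ^ KM) ≤ (K : ℝ) := by
    refine hK0.trans ?_
    rw [hKdef]
    exact_mod_cast Nat.le_add_right _ _
  intro o δ X b J D0 P2' S Ω Er u D B1 B2 Y V d E hJ hKb hKH hHJ hJ1 hP2 hDS hY hΩ hEq hE hD0 hV
    hV1 hd1 hPi hB hdl hdisj hcf
  obtain ⟨hr, hrg, hFF⟩ := Pool.Agent.H379R2.PP.sm1
  -- the primes
  have hP1 : ∀ p ∈ P1 (HH X) J, p.Prime ∧ HH X < p ∧ p ≤ 2 ^ 2 ^ J := by
    intro p hp
    simp only [P1, Finset.mem_filter, Finset.mem_range] at hp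
    exact ⟨hp.2.1, hp.2.2, hp.1.le⟩
  have hP2a : ∀ p ∈ P2', p.Prime ∧ HH X < p ∧ 2 ^ 2 ^ J < p := by
    intro p hp
    obtain ⟨hpp, hple⟩ := hP2 p hp
    refine ⟨hpp, lt_of_lt_of_le hHJ hple, lt_of_le_of_ne hple ?_⟩
    intro he
    rw [← he] at hpp
    exact not_prime_pow hJ1 hpp
  have hpr : ∀ p ∈ P1 (HH X) J ∪ P2', p.Prime := by
    intro p hp
    rcases Finset.mem_union.mp hp with h | h
    · exact (hP1 p h).1
    · exact (hP2 p h).1
  have hge1 : ∀ p ∈ P1 (HH X) J ∪ P2', 1 ≤ p := fun p hp => (hpr p hp).one_lt.le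
  have hge1a : ∀ p ∈ P1 (HH X) J, 1 ≤ p := fun p hp => hge1 p (Finset.mem_union_left _ hp)
  have hge1b : ∀ p ∈ P2', 1 ≤ p := fun p hp => hge1 p (Finset.mem_union_right _ hp)
  have hErn : ∀ T, 0 ≤ Er T := hEq.2.1
  have hMM : ∀ n ∈ S, n < S.sup id + 1 := by
    intro n hn
    exact Nat.lt_succ_of_le (Finset.le_sup (f := id) hn)
  obtain ⟨hEqd, hDens⟩ := Pool.Agent.H379R2.PP.sm3 o (P1 (HH X) J ∪ P2') S Ω Er (S.sup id + 1)
    D0 hpr hEq hMM
  set M := S.sup id + 1 with hMdef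
  set w : ℕ → ℝ := fun n => if n ∈ S then 1 else 0 with hw
  have hw0 : ∀ m, 0 ≤ w m := by
    intro m; simp only [hw]; split_ifs <;> norm_num
  have hd0 : 0 ≤ d := by
    have := hdl ∅ (Finset.empty_subset _) (by simp)
    exact le_trans (dl_nonneg _ _ _ _ hge1) this
  have hsetup : EN.Setup K b J (HH X) D0 (P1 (HH X) J) P2' (B1 ∪ B2) rho (kk o) (ee o) w M Ω
      Er := by
    refine ⟨hKb, hKH, hP1, hP2a, hDens, hw0, hΩ, hEqd, ?_⟩
    intro p hp a _
    exact rho_lt a (hge1 p hp)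
  have hV1eq : EN.V1 (P1 (HH X) J) = VV δ X := by
    rw [hJ]; rfl
  have hxx : ∀ n, EN.xx rho (P1 (HH X) J) D.S D.g n = xx D n := by
    intro n
    funext τ a
    unfold EN.xx xx
    rw [hrg _ _ _ hge1a, hFF (D.S τ) a n
      (fun R hR p hp => hge1b p ((hDS τ R hR).1 hp)), hJ, hcf a]
    ring
  have hqq : (fun (τ : Fin t) (_ : ℕ) => D.g τ ^ 2 * (VV δ X * AC.GG (D.S τ))) = qq D := by
    funext τ a
    unfold qq
    rw [hcf a]
    ring
  have hprod : ∏ τ : Fin (t + t), (Fin.append Y Y) τ = (∏ τ, Y τ) ^ 2 := by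
    rw [Fin.prod_univ_add]
    simp only [Fin.append_left, Fin.append_right]
    ring
  have main := main_pos Pool.Agent.H212R2.AC4b.countMaps (t + t) 1 KM K le_rfl hM (by omega)
    (by omega) hKc b J (HH X) D0 (P1 (HH X) J) P2' (B1 ∪ B2) rho (kk o) (ee o) w M Ω Er
    (SS2 B1 B2 D.S) (Fin.append D.g D.g) (Fin.append Y Y) V d hsetup
    (by rw [hprod]; refine le_trans (le_of_eq ?_) hD0; ring) hV hV1 hd1 hPi
    (by rw [hV1eq]; exact hB)
    (by
      intro τ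
      refine Fin.addCases (fun i => ?_) (fun i => ?_) τ
      · rw [Fin.append_left]; exact D.hg i
      · rw [Fin.append_right]; exact D.hg i)
    (by
      intro τ a R hR
      obtain ⟨i, hi⟩ := SS2_mem hR
      exact (hDS i R hi).1)
    (by
      intro τ a h
      obtain ⟨i, hi⟩ := SS2_mem h
      exact D.h0 i hi)
    (fun τ τ' a hne => SS2_disj hdisj D.hd τ τ' a hne)
    (fun U hU hc => hdl U hU (hc.trans (by omega)))
    (by
      intro τ
      refine Fin.addCases (fun i => ?_) (fun i => ?_) τ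
      · rw [Fin.append_left]
        refine ⟨hY i, fun a R hR => ?_⟩
        rw [SS2_left] at hR
        split_ifs at hR
        · exact (hDS i R hR).2
        · exact absurd hR (Finset.notMem_empty _)
      · rw [Fin.append_right]
        refine ⟨hY i, fun a R hR => ?_⟩
        rw [SS2_right] at hR
        split_ifs at hR
        · exact (hDS i R hR).2
        · exact absurd hR (Finset.notMem_empty _))
    (fun _ => 1) (fun _ => by simp)
  have hW : ∀ m, AC.WW (B1 ∪ B2) (fun _ => 1)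
      (xp rho (P1 (HH X) J) (SS2 B1 B2 D.S) (Fin.append D.g D.g) m) =
      AC.WW B1 (fun _ => 1) (xx D m) * AC.WW B2 (fun _ => 1) (xx D m) := by
    intro m
    rw [xp_dbl, WW_dbl hdisj, hxx]
  have hmain : ∑ σ ∈ AC.cfg (t + t) (B1 ∪ B2), (fun _ : Fin (t + t) → Option ℕ => (1 : ℝ)) σ ^ 2 *
      AC.term (fun τ a => (Fin.append D.g D.g) τ ^ 2 *
        (EN.V1 (P1 (HH X) J) * AC.GG (SS2 B1 B2 D.S τ a))) σ =
      ZZ D B1 (fun _ => 1) * ZZ D B2 (fun _ => 1) := by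
    rw [gg_dbl, hV1eq, hqq, ZZ_WW, ZZ_WW, ← WW_dbl hdisj]
    unfold AC.WW
    refine Finset.sum_congr rfl fun σ _ => ?_
    ring
  rw [hmain] at main
  simp only [hW] at main
  simp only [hw] at main
  rw [sum_ind S M hMM] at main
  refine main.trans ?_
  exact EF_mono le_rfl hΩ hV hV1 hd0 hE (ET_nonneg _ _ _ _ hErn)

end Pool.Agent.Y833.LG
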