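import Pool.Agent.H862R2.PP.Sm5
import Pool.Agent.Y833.LG.Body

/-!
Second moments, fourth moments and correlations, for sets of positions of bounded size: the
pointwise part (fixed `X`).
-/

set_option autoImplicit false

open Finset

namespace Pool.Agent.Y833.LG

open Pool.Agent.H361R2.PP
open Pool.Agent.H410R2
open Pool.Agent.H372R2.PPSM4
open Pool.Agent.H862R2.PPSm5

variable {t : ℕ}

theorem errsum_mono {K' K : ℕ} (hK : K' ≤ K) (Q : Finset (Finset ℕ)) (Er : Finset ℕ → ℝ)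
    (h : ∀ T, 0 ≤ Er T) :
    ∑ T ∈ Q, (K' : ℝ) ^ T.card * Er T ≤ ∑ T ∈ Q, (K : ℝ) ^ T.card * Er T := by
  apply Finset.sum_le_sum
  intro T _
  apply mul_le_mul_of_nonneg_right _ (h T)
  exact pow_le_pow_left₀ (Nat.cast_nonneg _) (by exact_mod_cast hK) _

theorem errsum_nonneg (K : ℕ) (Q : Finset (Finset ℕ)) (Er : Finset ℕ → ℝ)
    (h : ∀ T, 0 ≤ Er T) : 0 ≤ ∑ T ∈ Q, (K : ℝ) ^ T.card * Er T :=
  Finset.sum_nonneg fun T _ => mul_nonneg (by positivity) (h T)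

theorem pbody_mono {K' K : ℕ} (hK : K' ≤ K) (h : PBody t K') : PBody t K := by
  intro o δ X b J D0 P2' S Ω Er u D B1 B2 Y V d E hJ hKb hKH hHJ hJ1 hP2 hDS hY hΩ hEq hE hD0 hV
    hV1 hd1 hPi hB hdl hdisj hcf
  have hErn : ∀ T, 0 ≤ Er T := hEq.2.1
  have hge1 : ∀ p ∈ P1 (HH X) J ∪ P2', 1 ≤ p := by
    intro p hp
    rcases Finset.mem_union.mp hp with h | h
    · simp only [P1, Finset.mem_filter, Finset.mem_range] at h
      exact h.2.1.one_lt.le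
    · exact (hP2 p h).1.one_lt.le
  have hd0 : 0 ≤ d := by
    have := hdl ∅ (Finset.empty_subset _) (by simp)
    exact le_trans (dl_nonneg _ _ _ _ hge1) this
  have h1 := h o δ X b J D0 P2' S Ω Er u D B1 B2 Y V d E hJ (hK.trans hKb) (hK.trans hKH) hHJ hJ1
    hP2 hDS hY hΩ hEq ((errsum_mono hK _ Er hErn).trans hE)
    (le_trans (Nat.mul_le_mul_right _ (Nat.pow_le_pow_right (Nat.one_le_two_pow)
      (Nat.mul_le_mul_right b hK))) hD0) hV hV1 hd1 hPi hB hdl hdisj hcf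
  refine h1.trans ?_
  exact EF_mono hK hΩ hV hV1 hd0 le_rfl ((errsum_nonneg K _ Er hErn).trans hE)

theorem body_mono {K' K : ℕ} (hK1 : 1 ≤ K') (hK : K' ≤ K) (h : Body t 1 1 K') : Body t 1 1 K := by
  intro o δ X b J D0 k0 P2' S Ω Er u D B Y Y1 SS V d E hJ hKb hKH hHJ hJ1 hP2 hDS hY hY1 hSS
    hΩ hEq hE hD0 hV hV1 hd1 hPi hB hdl hk0 c hc
  have hErn : ∀ T, 0 ≤ Er T := hEq.2.1
  have hge1 : ∀ p ∈ P1 (HH X) J ∪ P2', 1 ≤ p := by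
    intro p hp
    rcases Finset.mem_union.mp hp with h | h
    · simp only [P1, Finset.mem_filter, Finset.mem_range] at h
      exact h.2.1.one_lt.le
    · exact (hP2 p h).1.one_lt.le
  have hd0 : 0 ≤ d := by
    have := hdl ∅ (Finset.empty_subset _) (by simp)
    exact le_trans (dl_nonneg _ _ _ _ hge1) this
  have hE0 : 0 ≤ E := (errsum_nonneg K _ Er hErn).trans hE
  have hVV0 : 0 ≤ VV δ X := by
    unfold VV
    apply Finset.prod_nonneg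
    intro p hp
    have h1 : (1 : ℝ) < p := by exact_mod_cast (Finset.mem_filter.1 hp).2.1.one_lt
    rw [sub_nonneg, div_le_one (by linarith)]
    exact h1.le
  obtain ⟨h1, h2, h3⟩ := h o δ X b J D0 k0 P2' S Ω Er u D B Y Y1 SS V d E hJ (hK.trans hKb)
    (hK.trans hKH) hHJ hJ1
    hP2 hDS hY hY1 hSS hΩ hEq ((errsum_mono hK _ Er hErn).trans hE)
    (le_trans (Nat.mul_le_mul_right _ (Nat.pow_le_pow_right (Nat.one_le_two_pow)
      (Nat.mul_le_mul_right b hK))) hD0) hV hV1 hd1 hPi hB hdl hk0 c hc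
  refine ⟨h1.trans ?_, fun a ha => (h2 a ha).trans ?_, h3.trans ?_⟩
  · exact mul_le_mul_of_nonneg_left (EF_mono hK hΩ hV hV1 hd0 le_rfl hE0) (by positivity)
  · exact mul_le_mul_of_nonneg_left (EF_mono hK (mul_nonneg hΩ hVV0) hV hV1 hd0 le_rfl hE0)
      (by positivity)
  · have hKr : (K' : ℝ) ≤ K := by exact_mod_cast hK
    have hK1r : (1 : ℝ) ≤ K := by exact_mod_cast hK1.trans hK
    have h1V : 1 ≤ (K : ℝ) / V := by
      rw [le_div_iff₀ hV]; linarith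
    have hKV : (K' / V) ^ K' ≤ ((K : ℝ) / V) ^ K := by
      calc ((K' : ℝ) / V) ^ K' ≤ ((K : ℝ) / V) ^ K' := by
            apply pow_le_pow_left₀ (by positivity)
            exact div_le_div_of_nonneg_right hKr hV.le
        _ ≤ ((K : ℝ) / V) ^ K := pow_le_pow_right₀ h1V hK
    gcongr

/-- all the moments, for sets of positions of bounded size -/
theorem core2 {K : ℕ} (h4 : Body t 1 1 K) (hP : PBody t K)
    {u : Fin t → ℝ} {Λ θ δ V d : ℝ} {b X b0 : ℕ} (hu : ∀ τ, 0 < u τ) (hsum : ∑ τ, u τ ≤ θ / 4)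
    (hθ : 0 < θ) (hθ1 : θ ≤ 1 / 32) (hδ : 0 < δ) (hδ1 : δ ≤ 1 / 8)
    (hKb : K ≤ b) (hδb : δ * (K * b) ≤ θ / 4) (hV0 : 0 < V) (hV1 : V ≤ 1) (hd : d ≤ 1)
    (hX16 : 16 ≤ X) (hKH : K ≤ HH X) (hw1 : (2 : ℝ) ^ 2 ^ JJ δ X ≤ (X : ℝ) ^ δ)
    (hw2 : (X : ℝ) ^ (δ / 2) ≤ (2 : ℝ) ^ 2 ^ JJ δ X) (hw3 : HH X < 2 ^ 2 ^ JJ δ X)
    (hJ : 1 ≤ JJ δ X)
    (hPi : ∏ p ∈ P2 (JJ δ X) X, (1 + (1 : ℝ) / ((p : ℝ) - 1)) ≤ 1 / V)
    (hΛ : 0 < Λ) (hΛX : Λ * Real.log X ≤ X)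
    (hdl : ∀ P : Finset ℕ, (∀ p ∈ P, p.Prime ∧ HH X < p) → ∀ U : Finset ℕ, U.card ≤ 4 * t + 2 →
      (∀ a ∈ U, 1 ≤ a ∧ (a : ℝ) ≤ Λ * Real.log X) → ∀ o : Option ℕ,
      (∀ a ∈ o, 1 ≤ a ∧ (a : ℝ) ≤ Λ * Real.log X ∧ a ∉ U) → EN.dl (ee o) rho P U ≤ d)
    {o : Option ℕ} {S : Finset ℕ} {Ω E : ℝ} {Er : Finset ℕ → ℝ} (hS : ∀ n ∈ S, n < 2 * X)
    (hΩ : 0 ≤ Ω)
    (hEq : Eqd o ((PX X).filter (fun p : ℕ => (p : ℝ) ≤ (X : ℝ) ^ (1 / 2 : ℝ))) S Ω Er)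
    (hEs : ∑ D ∈ (PX X).powerset.filter
      (fun D : Finset ℕ => ∏ p ∈ D, (p : ℝ) ≤ (X : ℝ) ^ (1 / 2 - θ)),
      (K : ℝ) ^ D.card * Er D ≤ E)
    (D : Dat t u 1 δ X) :
    (∀ B ⊆ BB X b0 ⌊Λ * Real.log X⌋₊, (B.card : ℝ) * VV δ X ≤ 1 / V →
      (∀ a ∈ o, 1 ≤ a ∧ (a : ℝ) ≤ Λ * Real.log X ∧ a ∉ B) →
      ∀ (c : (Fin t → Option ℕ) → ℝ), (∀ σ, |c σ| ≤ 1) →
      |∑ n ∈ S, AC.WW B c (xx D n) ^ 2 - Ω * ZZ D B c| ≤ EN.EF t K b (JJ δ X) B.card Ω V d E ∧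
      (∀ a ∈ B, |∑ n ∈ S, (spec δ θ X a n * AC.WW (B.erase a) c (xx D n)) ^ 2 -
        Ω * (VV δ X * AC.GG (S1 δ θ X) * ZZ D (B.erase a) c)| ≤
        EN.EF t K b (JJ δ X) B.card (Ω * VV δ X) V d E) ∧
      ∑ n ∈ S, AC.WW B c (xx D n) ^ 4 ≤
        ((K / V) ^ K * 2 ^ (4 * t * ⌊4 / δ⌋₊) *
        (Ω + (B.card + 1 : ℝ) ^ (4 * t) * (((JJ δ X : ℝ) + 2) * E)))) ∧
    (∀ B1 ⊆ BB X b0 ⌊Λ * Real.log X⌋₊, ∀ B2 ⊆ BB X b0 ⌊Λ * Real.log X⌋₊, Disjoint B1 B2 →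
      ((B1 ∪ B2).card : ℝ) * VV δ X ≤ 1 / V →
      (∀ a ∈ o, 1 ≤ a ∧ (a : ℝ) ≤ Λ * Real.log X ∧ a ∉ B1 ∪ B2) → (∀ a, D.cf a = -1) →
      |∑ n ∈ S, (AC.WW B1 (fun _ => 1) (xx D n) * AC.WW B2 (fun _ => 1) (xx D n)) ^ 2 -
        Ω * (ZZ D B1 (fun _ => 1) * ZZ D B2 (fun _ => 1))| ≤
        EN.EF (t + t) K b (JJ δ X) (B1 ∪ B2).card Ω V d E) := by
  have hXr : (16 : ℝ) ≤ X := by exact_mod_cast hX16
  have hX0 : (0 : ℝ) < X := by linarith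
  have hX1 : (1 : ℝ) ≤ X := by linarith
  have hlog : 0 ≤ Λ * Real.log X := mul_nonneg hΛ.le (Real.log_nonneg hX1)
  set J := JJ δ X with hJdef
  set M : ℕ := 2 ^ 2 ^ J with hM
  have hMr : ((2 : ℝ) ^ 2 ^ J) = (M : ℝ) := by rw [hM]; push_cast; rfl
  rw [hMr] at hw1 hw2
  have hle : ∀ {x y : ℝ}, x ≤ y → (X : ℝ) ^ x ≤ (X : ℝ) ^ y := fun h =>
    Real.rpow_le_rpow_of_exponent_le hX1 h
  set z : ℕ := ⌊(X : ℝ) ^ (1 / 4 : ℝ)⌋₊ with hz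
  have hzX : z ≤ X := by
    have h1 : (X : ℝ) ^ (1 / 4 : ℝ) ≤ X := by
      calc (X : ℝ) ^ (1 / 4 : ℝ) ≤ (X : ℝ) ^ (1 : ℝ) := hle (by norm_num)
        _ = X := Real.rpow_one _
    have h2 : (z : ℝ) ≤ X := (Nat.floor_le (by positivity)).trans h1
    exact_mod_cast h2
  have hP2' : ∀ p ∈ P2 J z, p.Prime ∧ M ≤ p := fun p hp => (Finset.mem_filter.1 hp).2
  have hP2sub : P2 J z ⊆ P2 J X := by
    intro p hp
    unfold P2 at hp ⊢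
    rw [Finset.mem_filter, Finset.mem_range] at hp ⊢
    exact ⟨by omega, hp.2⟩
  have hP1 : ∀ p ∈ P1 (HH X) J, p.Prime ∧ HH X < p := fun p hp => (Finset.mem_filter.1 hp).2
  have hunion : ∀ p ∈ P1 (HH X) J ∪ P2 J z, p.Prime ∧ HH X < p := by
    intro p hp
    rcases Finset.mem_union.1 hp with h | h
    · exact hP1 p h
    · exact ⟨(hP2' p h).1, lt_of_lt_of_le hw3 (hP2' p h).2⟩
  have hsubPX : P1 (HH X) J ∪ P2 J z ⊆
      (PX X).filter (fun p : ℕ => (p : ℝ) ≤ (X : ℝ) ^ (1 / 2 : ℝ)) := by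
    intro p hp
    obtain ⟨h1, h2⟩ := hunion p hp
    have h3 : (p : ℝ) ≤ (X : ℝ) ^ (1 / 2 : ℝ) := by
      rcases Finset.mem_union.1 hp with h | h
      · have h5 : p < M := by
          have := (Finset.mem_filter.1 h).1
          rwa [Finset.mem_range] at this
        have h6 : (p : ℝ) ≤ M := by exact_mod_cast h5.le
        exact h6.trans (hw1.trans (hle (by linarith)))
      · have h5 : p < z + 1 := by
          have := (Finset.mem_filter.1 h).1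
          rwa [Finset.mem_range] at this
        have h6 : (p : ℝ) ≤ z := by exact_mod_cast (by omega : p ≤ z)
        exact h6.trans ((Nat.floor_le (by positivity)).trans (hle (by norm_num)))
    have h4 : p ≤ X := by
      have h5 : (X : ℝ) ^ (1 / 2 : ℝ) ≤ X := by
        calc (X : ℝ) ^ (1 / 2 : ℝ) ≤ (X : ℝ) ^ (1 : ℝ) := hle (by norm_num)
          _ = X := Real.rpow_one _
      exact_mod_cast h3.trans h5
    rw [Finset.mem_filter]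
    unfold PX
    rw [Finset.mem_filter, Finset.mem_range]
    exact ⟨⟨by omega, h1, h2⟩, h3⟩
  -- sets of primes with small product
  have hfam : ∀ (x : ℝ) (R : Finset ℕ), x ≤ 1 / 4 → R ⊆ P2 J X →
      ∏ p ∈ R, (p : ℝ) ≤ (X : ℝ) ^ x → R ⊆ P2 J z ∧ ∏ p ∈ R, p ≤ ⌊(X : ℝ) ^ x⌋₊ := by
    intro x R hx hR hprod
    refine ⟨?_, ?_⟩
    · intro p hp
      have h1 := Finset.mem_filter.1 (hR hp)
      unfold P2
      rw [Finset.mem_filter, Finset.mem_range]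
      refine ⟨?_, h1.2⟩
      have h2 : p ≤ ∏ q ∈ R, q := mem_le_prod (fun q hq => (Finset.mem_filter.1 (hR hq)).2.1.one_le) hp
      have h3 : (p : ℝ) ≤ (X : ℝ) ^ (1 / 4 : ℝ) := by
        have h5 : (p : ℝ) ≤ ∏ q ∈ R, (q : ℝ) := by
          have h6 : (p : ℝ) ≤ ((∏ q ∈ R, q : ℕ) : ℝ) := Nat.cast_le.2 h2
          rwa [Nat.cast_prod] at h6
        exact h5.trans (hprod.trans (hle hx))
      have := Nat.le_floor h3
      omega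
    · apply Nat.le_floor
      push_cast
      exact hprod
  have hu4 : ∀ τ, u τ ≤ 1 / 4 := by
    intro τ
    have h1 : u τ ≤ ∑ τ, u τ := Finset.single_le_sum (fun i _ => (hu i).le) (Finset.mem_univ τ)
    linarith
  have hone : ∀ x : ℝ, 0 ≤ x → 1 ≤ ⌊(X : ℝ) ^ x⌋₊ := by
    intro x hx
    apply Nat.le_floor
    simpa using Real.one_le_rpow hX1 hx
  -- the main inequalities for the exponents
  have hMb : (M : ℝ) ^ (K * b) ≤ (X : ℝ) ^ (θ / 4) := by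
    calc (M : ℝ) ^ (K * b) ≤ ((X : ℝ) ^ δ) ^ (K * b) :=
          pow_le_pow_left₀ (Nat.cast_nonneg _) hw1 _
      _ = (X : ℝ) ^ (δ * ((K * b : ℕ) : ℝ)) := by
          rw [← Real.rpow_natCast, ← Real.rpow_mul hX0.le]
      _ ≤ (X : ℝ) ^ (θ / 4) := by
          apply hle
          push_cast
          exact hδb
  have hYY : ∏ τ, (⌊(X : ℝ) ^ (u τ)⌋₊ : ℝ) ≤ (X : ℝ) ^ (θ / 4) := by
    calc ∏ τ, (⌊(X : ℝ) ^ (u τ)⌋₊ : ℝ) ≤ ∏ τ, (X : ℝ) ^ (u τ) := by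
          apply Finset.prod_le_prod
          · intro i _
            positivity
          · intro i _
            exact Nat.floor_le (by positivity)
      _ = (X : ℝ) ^ (∑ τ, u τ) := by rw [Real.rpow_sum_of_pos hX0]
      _ ≤ (X : ℝ) ^ (θ / 4) := hle hsum
  have hD0 : M ^ (K * b) * (⌊(X : ℝ) ^ (1 / 4 - 2 * θ)⌋₊ * ∏ τ, ⌊(X : ℝ) ^ (u τ)⌋₊) ^ 2 ≤
      ⌊(X : ℝ) ^ (1 / 2 - θ)⌋₊ := by
    apply Nat.le_floor
    push_cast
    have h2 : (⌊(X : ℝ) ^ (1 / 4 - 2 * θ)⌋₊ : ℝ) ≤ (X : ℝ) ^ (1 / 4 - 2 * θ) :=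
      Nat.floor_le (by positivity)
    have h5 : (⌊(X : ℝ) ^ (1 / 4 - 2 * θ)⌋₊ : ℝ) * ∏ τ, (⌊(X : ℝ) ^ (u τ)⌋₊ : ℝ) ≤
        (X : ℝ) ^ (1 / 4 - 2 * θ) * (X : ℝ) ^ (θ / 4) :=
      mul_le_mul h2 hYY (by positivity) (by positivity)
    calc (M : ℝ) ^ (K * b) * ((⌊(X : ℝ) ^ (1 / 4 - 2 * θ)⌋₊ : ℝ) *
          ∏ τ, (⌊(X : ℝ) ^ (u τ)⌋₊ : ℝ)) ^ 2
        ≤ (X : ℝ) ^ (θ / 4) * ((X : ℝ) ^ (1 / 4 - 2 * θ) * (X : ℝ) ^ (θ / 4)) ^ 2 :=
          mul_le_mul hMb (pow_le_pow_left₀ (by positivity) h5 _) (by positivity) (by positivity)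
      _ = (X : ℝ) ^ (θ / 4 + ((1 / 4 - 2 * θ) + θ / 4) * 2) := by
          rw [Real.rpow_add hX0, ← Real.rpow_add hX0, Real.rpow_mul hX0.le]
          norm_num
      _ ≤ (X : ℝ) ^ (1 / 2 - θ) := hle (by linarith)
  have hD4 : M ^ (K * b) * (∏ τ, ⌊(X : ℝ) ^ (u τ)⌋₊) ^ 4 ≤ ⌊(X : ℝ) ^ (1 / 2 - θ)⌋₊ := by
    apply Nat.le_floor
    push_cast
    calc (M : ℝ) ^ (K * b) * (∏ τ, (⌊(X : ℝ) ^ (u τ)⌋₊ : ℝ)) ^ 4
        ≤ (X : ℝ) ^ (θ / 4) * ((X : ℝ) ^ (θ / 4)) ^ 4 :=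
          mul_le_mul hMb (pow_le_pow_left₀ (by positivity) hYY _) (by positivity) (by positivity)
      _ = (X : ℝ) ^ (θ / 4 + (θ / 4) * 4) := by
          rw [Real.rpow_add hX0, Real.rpow_mul hX0.le]
          norm_num
      _ ≤ (X : ℝ) ^ (1 / 2 - θ) := hle (by linarith)
  have hBB : ∀ a ∈ BB X b0 ⌊Λ * Real.log X⌋₊, 1 ≤ a ∧ (a : ℝ) ≤ Λ * Real.log X := by
    intro a ha
    have h1 := Finset.mem_Icc.1 (Finset.mem_filter.1 ha).1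
    exact ⟨h1.1, (Nat.le_floor_iff hlog).1 h1.2⟩
  have hErsum : ∑ T ∈ (P1 (HH X) J ∪ P2 J z).powerset.filter
      (fun T : Finset ℕ => ∏ p ∈ T, p ≤ ⌊(X : ℝ) ^ (1 / 2 - θ)⌋₊), (K : ℝ) ^ T.card * Er T ≤ E := by
    refine le_trans ?_ hEs
    apply Finset.sum_le_sum_of_subset_of_nonneg
    · intro T hT
      rw [Finset.mem_filter, Finset.mem_powerset] at hT ⊢
      refine ⟨fun p hp => (Finset.mem_filter.1 (hsubPX (hT.1 hp))).1, ?_⟩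
      have h1 := (Nat.le_floor_iff (by positivity)).1 hT.2
      push_cast at h1
      exact h1
    · intro T _ _
      exact mul_nonneg (by positivity) (hEq.2.1 T)
  have hDS : ∀ τ, ∀ R ∈ D.S τ, R ⊆ P2 J z ∧ ∏ p ∈ R, p ≤ ⌊(X : ℝ) ^ (u τ)⌋₊ := by
    intro τ R hR
    obtain ⟨h1, h2⟩ := D.hS τ R hR
    refine hfam (u τ) R (hu4 τ) h1 ?_
    have hpos : (0 : ℝ) < ∏ p ∈ R, (p : ℝ) := Finset.prod_pos fun p hp => by
      exact_mod_cast (Finset.mem_filter.1 (h1 hp)).2.1.pos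
    rw [← Real.log_rpow hX0, Real.log_le_log_iff hpos (by positivity)] at h2
    exact h2
  have hPi' := (pi1_mono hP2sub (fun p hp => (Finset.mem_filter.1 hp).2.1)).trans hPi
  constructor
  · intro B hB hBV ho c hc
    have main := h4 o δ X b J ⌊(X : ℝ) ^ (1 / 2 - θ)⌋₊ ⌊4 / δ⌋₊ (P2 J z) S Ω Er u D B
      (fun τ => ⌊(X : ℝ) ^ (u τ)⌋₊) ⌊(X : ℝ) ^ (1 / 4 - 2 * θ)⌋₊ (S1 δ θ X) V d E rfl hKb hKH hw3 hJ
      hP2' hDS (fun τ => hone _ (hu τ).le) (hone _ (by linarith)) (by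
        intro R hR
        have h1 := Finset.mem_filter.1 hR
        exact hfam _ R (by linarith) (Finset.mem_powerset.1 h1.1) h1.2) hΩ (eqd_mono hsubPX hEq)
      hErsum hD0 hV0 hV1 hd hPi' hBV
      (by
        intro U hU hUc
        exact hdl _ hunion U hUc (fun a ha => hBB a (hB (hU ha))) o
          (fun a ha => ⟨(ho a ha).1, (ho a ha).2.1, fun h => (ho a ha).2.2 (hU h)⟩))
      (by
        intro n hn a ha
        refine few_primes hδ (by omega) hP2' hw2 ?_ ?_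
        · have := (hBB a (hB ha)).1
          omega
        · have h1 := (hBB a (hB ha)).2
          have h2 : (n : ℝ) < 2 * X := by exact_mod_cast hS n hn
          push_cast
          rw [Real.rpow_two]
          nlinarith)
      c hc
    simp only [one_pow, one_mul] at main
    exact main
  · intro B1 hB1 B2 hB2 hdisj hBV ho hcf
    exact hP o δ X b J ⌊(X : ℝ) ^ (1 / 2 - θ)⌋₊ (P2 J z) S Ω Er u D B1 B2
      (fun τ => ⌊(X : ℝ) ^ (u τ)⌋₊) V d E rfl hKb hKH hw3 hJ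
      hP2' hDS (fun τ => hone _ (hu τ).le) hΩ (eqd_mono hsubPX hEq)
      hErsum hD4 hV0 hV1 hd hPi' hBV
      (by
        intro U hU hUc
        exact hdl _ hunion U (hUc.trans (by omega))
          (fun a ha => hBB a ((Finset.union_subset hB1 hB2) (hU ha))) o
          (fun a ha => ⟨(ho a ha).1, (ho a ha).2.1, fun h => (ho a ha).2.2 (hU h)⟩))
      hdisj hcf

end Pool.Agent.Y833.LG
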