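import Pool.Agent.H361R2.PP.Asm2
import Pool.Agent.Y833.LG.Core

/-!
Second and fourth moments and correlations over the primes of a class: asymptotic form.  The sets
of positions have bounded size, and the constants do not depend on the length of the window.
-/

set_option autoImplicit false

open Finset Filter Topology

namespace Pool.Agent.Y833.LG

open Pool.Agent.H361R2.PP
open Pool.Agent.H410R2
open Pool.Agent.H372R2.PPSM4
open Pool.Agent.H862R2.PPSm5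

/-- the error term of the second moments -/
theorem ef_gen {n m K b J k A : ℕ} {V d s Ω L cv T A' : ℝ} (hV : 0 < V)
    (hs : 0 < s) (hΩ : 0 ≤ Ω) (hA' : 0 ≤ A') (hnm : 2 * n + 2 ≤ m)
    (hb : K / V ^ K * (1 / 2 : ℝ) ^ b ≤ s / 3)
    (hd : K / V ^ K * (Real.exp (K * d) - 1) ≤ s / 3)
    (hab : K / V ^ K * (((k : ℝ) + 1) ^ m * (((J : ℝ) + 2) * (1 / L ^ A))) ≤ (s / 3 * cv) / L)
    (hT : Ω * (cv / L) ≤ T) (hL : 0 < L) :
    EN.EF n K b J k A' V d (Ω / L ^ A) ≤ s / 3 * A' + s / 3 * A' + s / 3 * T := by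
  unfold EN.EF
  have hk1 : (1 : ℝ) ≤ (k : ℝ) + 1 := by
    have : (0 : ℝ) ≤ k := Nat.cast_nonneg k
    linarith
  have h1 : ((k : ℝ) + 1) ^ (2 * n + 2) ≤ ((k : ℝ) + 1) ^ m := pow_le_pow_right₀ hk1 hnm
  have e1 : A' * (K / V ^ K * (Real.exp (K * d) - 1 + (1 / 2 : ℝ) ^ b)) +
      K / V ^ K * ((k : ℝ) + 1) ^ (2 * n + 2) * (((J : ℝ) + 2) * (Ω / L ^ A)) =
      (K / V ^ K * (Real.exp (K * d) - 1)) * A' + (K / V ^ K * (1 / 2 : ℝ) ^ b) * A' +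
      Ω * (K / V ^ K * (((k : ℝ) + 1) ^ (2 * n + 2) * (((J : ℝ) + 2) * (1 / L ^ A)))) := by ring
  rw [e1]
  have h2 : K / V ^ K * (((k : ℝ) + 1) ^ (2 * n + 2) * (((J : ℝ) + 2) * (1 / L ^ A))) ≤
      K / V ^ K * (((k : ℝ) + 1) ^ m * (((J : ℝ) + 2) * (1 / L ^ A))) := by
    apply mul_le_mul_of_nonneg_left _ (by positivity)
    apply mul_le_mul_of_nonneg_right h1 (by positivity)
  have h3 : Ω * (K / V ^ K * (((k : ℝ) + 1) ^ (2 * n + 2) * (((J : ℝ) + 2) * (1 / L ^ A)))) ≤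
      s / 3 * T := by
    calc Ω * (K / V ^ K * (((k : ℝ) + 1) ^ (2 * n + 2) * (((J : ℝ) + 2) * (1 / L ^ A))))
        ≤ Ω * ((s / 3 * cv) / L) := mul_le_mul_of_nonneg_left (h2.trans hab) hΩ
      _ = s / 3 * (Ω * (cv / L)) := by ring
      _ ≤ s / 3 * T := mul_le_mul_of_nonneg_left hT (by positivity)
  have h4 := mul_le_mul_of_nonneg_right hd hA'
  have h5 := mul_le_mul_of_nonneg_right hb hA'
  linarith

/-- moments over the primes of a class -/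
def MomR : Prop := ∀ (t : ℕ) (u : Fin t → ℝ) (lam θ s : ℝ), (∀ τ, 0 < u τ) → ∑ τ, u τ ≤ θ / 4 →
  0 < θ → θ ≤ 1 / 32 → 0 < lam → 0 < s → ∃ δ₀ : ℝ, 0 < δ₀ ∧ ∀ δ : ℝ, 0 < δ → δ ≤ δ₀ →
  ∃ C : ℝ, 0 < C ∧ ∀ Λ : ℝ, 0 < Λ → ∃ X₀ : ℕ, ∀ X : ℕ, X₀ ≤ X → ∀ b : ℕ, b < Wm X →
  ∀ D : Dat t u 1 δ X, (∀ a, D.cf a = -1) → ∀ a₀ ∈ BB X b ⌊Λ * Real.log X⌋₊,
  (∀ B ⊆ BB X b ⌊Λ * Real.log X⌋₊,
    (B.card : ℝ) ≤ 2 * (lam * Real.log X * (Nat.totient (Wm X) / Wm X)) → a₀ ∉ B →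
    ∀ c : (Fin t → Option ℕ) → ℝ, (∀ σ, |c σ| ≤ 1) →
    |∑ n ∈ SP X b a₀, AC.WW B c (xx D n) ^ 2 - Pr X / Nat.totient (Wm X) * ZZ D B c| ≤
        s * (Pr X / Nat.totient (Wm X)) ∧
    (∀ a ∈ BB X b ⌊Λ * Real.log X⌋₊ \ B, a ≠ a₀ →
      |∑ n ∈ SP X b a₀, (spec δ θ X a n * AC.WW B c (xx D n)) ^ 2 -
        Pr X / Nat.totient (Wm X) * (VV δ X * AC.GG (S1 δ θ X) * ZZ D B c)| ≤
        s * (Pr X / Nat.totient (Wm X) * VV δ X)) ∧
    ∑ n ∈ SP X b a₀, AC.WW B c (xx D n) ^ 4 ≤ C * (Pr X / Nat.totient (Wm X))) ∧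
  (∀ B1 ⊆ BB X b ⌊Λ * Real.log X⌋₊, ∀ B2 ⊆ BB X b ⌊Λ * Real.log X⌋₊, Disjoint B1 B2 →
    (B1.card : ℝ) ≤ 2 * (lam * Real.log X * (Nat.totient (Wm X) / Wm X)) →
    (B2.card : ℝ) ≤ 2 * (lam * Real.log X * (Nat.totient (Wm X) / Wm X)) →
    a₀ ∉ B1 ∪ B2 →
    ∑ n ∈ SP X b a₀, (AC.WW B1 (fun _ => 1) (xx D n) * AC.WW B2 (fun _ => 1) (xx D n)) ^ 2 ≤
      Pr X / Nat.totient (Wm X) * (ZZ D B1 (fun _ => 1) * ZZ D B2 (fun _ => 1) + s))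

theorem momR : MomR := by
  intro t u lam θ s hu hsum hθ hθ1 hlam hs
  obtain ⟨K4, hK4, h4'⟩ := sm4_body sm4_final t 1 1 le_rfl le_rfl
  obtain ⟨KP, hKP, hP'⟩ := pBody t
  obtain ⟨K, hKdef⟩ : ∃ K : ℕ, K = max K4 KP := ⟨_, rfl⟩
  have hK : 1 ≤ K := by rw [hKdef]; exact le_max_of_le_left hK4
  have h4 : Body t 1 1 K := body_mono hK4 (by rw [hKdef]; exact le_max_left _ _) h4'
  have hP : PBody t K := pbody_mono (by rw [hKdef]; exact le_max_right _ _) hP'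
  obtain ⟨Cm, hCm, hMer⟩ := Pool.Agent.H488R2.mer Pool.Agent.H325R2.wtx
  obtain ⟨Cg, hCg, hGbd⟩ := Pool.Agent.H488R2.gbd Pool.Agent.H325R2.wtx 1
  obtain ⟨cv, hcv, hcv1, hvv⟩ := vv_lower
  set M : ℕ := Cg + (⌈4 * lam * Cm⌉₊ + 1) with hMdef
  have hM : 1 ≤ M := by omega
  have hMr : (1 : ℝ) ≤ M := by exact_mod_cast hM
  have hM0 : (0 : ℝ) < M := by linarith
  have hMC : 4 * lam * Cm + 1 ≤ M := by
    rw [hMdef]
    push_cast
    have := Nat.le_ceil (4 * lam * Cm)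
    have h2 : (0 : ℝ) ≤ Cg := Nat.cast_nonneg Cg
    linarith
  obtain ⟨δ₀, hδ₀, hδ₀8, hδ⟩ := choose_delta K M θ (s / 3) 1 hK hM hθ
    (by positivity) (by positivity)
  refine ⟨δ₀, hδ₀, fun δ hδ0 hδle => ?_⟩
  obtain ⟨b, hKb, hδb, hb⟩ := hδ δ hδ0 hδle
  have hδ8 : δ ≤ 1 / 8 := hδle.trans hδ₀8
  have hδ1 : δ ≤ 1 := by linarith
  set V : ℝ := (δ / M) ^ M with hV
  have hV0 : 0 < V := by positivity
  have hV1 : V ≤ 1 := by
    apply pow_le_one₀ (by positivity)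
    rw [div_le_one hM0]
    linarith
  have hVinv : 1 / V = ((M : ℝ) / δ) ^ M := by
    rw [hV, div_pow, div_pow]
    field_simp
  rw [one_mul] at hb
  obtain ⟨d, hd0, hd1, hd⟩ := choose_d K (K / V ^ K) (s / 3) (by positivity) (by positivity)
  refine ⟨(K / V) ^ K * 2 ^ (4 * t * ⌊4 / δ⌋₊) * 2, by positivity, fun Λ hΛ => ?_⟩
  obtain ⟨X₁, h1⟩ := Pool.Agent.H804R2.PPSm2.sm2 (4 * t + 2) Λ d hΛ hd0
  obtain ⟨X₂, h2⟩ := hMer δ hδ0 hδ1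
  obtain ⟨X₃, h3⟩ := hGbd δ hδ0 hδ8
  obtain ⟨X₄, hw⟩ := Pool.Agent.H325R2.wtx.2 δ hδ0 hδ1
  obtain ⟨X₇, h7⟩ := Pool.Agent.H96R2.EQP.eqPrime K (4 * t + 6) θ Λ hθ hΛ
  have hev : ∀ᶠ X : ℕ in atTop, (max K 2 ≤ HH X) ∧ (Λ * Real.log X ≤ X) ∧
      (2 < (X : ℝ) ^ (δ / 2)) ∧
      (∀ (k J : ℕ), (k : ℝ) ≤ Λ * Real.log X → (J : ℝ) + 2 ≤ 4 * Real.log X →
      1 ≤ Real.log X ∧
      (K / V ^ K) *
        (((k : ℝ) + 1) ^ (4 * t + 2) * (((J : ℝ) + 2) * (1 / Real.log X ^ (4 * t + 6)))) ≤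
        (s / 3 * cv) / Real.log X) ∧
      (∀ (k J : ℕ), (k : ℝ) ≤ Λ * Real.log X → (J : ℝ) + 2 ≤ 4 * Real.log X →
      1 ≤ Real.log X ∧
      1 * (((k : ℝ) + 1) ^ (4 * t + 2) * (((J : ℝ) + 2) * (1 / Real.log X ^ (4 * t + 6)))) ≤
        1 / Real.log X) := by
    have e1 := HH_tendsto.eventually_ge_atTop (max K 2)
    have e2 := logs_small Λ
    have e3 : ∀ᶠ X : ℕ in atTop, 2 < (X : ℝ) ^ (δ / 2) :=
      ((tendsto_rpow_atTop (by positivity : 0 < δ / 2)).comp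
        tendsto_natCast_atTop_atTop).eventually_gt_atTop 2
    have e4 := absorb t Λ (K / V ^ K) (s / 3 * cv) hΛ (by positivity) (by positivity)
    have e5 := absorb t Λ 1 1 hΛ (by norm_num) one_pos
    filter_upwards [e1, e2, e3, e4, e5] with X a1 a2 a3 a4 a5
    exact ⟨a1, a2, a3, a4, a5⟩
  obtain ⟨X₈, h8⟩ := Filter.eventually_atTop.1 hev
  refine ⟨max 16 (max X₁ (max X₂ (max X₃ (max X₄ (max X₇ X₈))))), ?_⟩
  intro X hX b0 hb0 D hcf a₀ ha₀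
  simp only [max_le_iff] at hX
  obtain ⟨hX16, hX1, hX2, hX3, hX4, hX7, hX8⟩ := hX
  obtain ⟨hHH, hΛX, hrp, hab, hab4⟩ := h8 X hX8
  obtain ⟨hw1, hw2, hw3⟩ := hw X hX4
  obtain ⟨hVV0, hVVC, _⟩ := h2 X hX2
  have hXr : (16 : ℝ) ≤ X := by exact_mod_cast hX16
  have hL0 : 0 < Real.log X := Real.log_pos (by linarith)
  have hKH : K ≤ HH X := (le_max_left _ _).trans hHH
  have h2H : 2 ≤ HH X := (le_max_right _ _).trans hHH
  have hJ : 1 ≤ JJ δ X := by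
    by_contra h
    have h0 : JJ δ X = 0 := by omega
    rw [h0] at hw2
    norm_num at hw2
    linarith
  have hJ4 : (JJ δ X : ℝ) + 2 ≤ 4 * Real.log X := JJ_le hδ1 hX16 hw1
  have hVVlow : cv / Real.log X ≤ VV δ X := hvv X δ hδ0 hδ1 hX16 h2H hw1 hw3
  have hVVn := vv_nonneg δ X
  have hVV1 := vv_le_one δ X
  have hPi : ∏ p ∈ P2 (JJ δ X) X, (1 + (1 : ℝ) / ((p : ℝ) - 1)) ≤ 1 / V := by
    have h10 := h3 X hX3
    rw [Nat.cast_one] at h10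
    refine h10.trans ?_
    rw [hVinv]
    have hCgr : (1 : ℝ) ≤ Cg := by exact_mod_cast hCg
    have h11 : (1 : ℝ) ≤ Cg / δ := by
      rw [le_div_iff₀ hδ0]
      linarith
    have h12 : (Cg : ℝ) / δ ≤ M / δ := by
      apply div_le_div_of_nonneg_right _ hδ0.le
      rw [hMdef]
      push_cast
      have : (0 : ℝ) ≤ (⌈4 * lam * Cm⌉₊ : ℝ) := Nat.cast_nonneg _
      linarith
    calc ((Cg : ℝ) / δ) ^ Cg ≤ ((Cg : ℝ) / δ) ^ M := pow_le_pow_right₀ h11 (by omega)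
      _ ≤ ((M : ℝ) / δ) ^ M := pow_le_pow_left₀ (by positivity) h12 _
  have hsize : (4 * (lam * Real.log X * (Nat.totient (Wm X) / Wm X)) + 1) * VV δ X ≤ 1 / V := by
    have h11 : 4 * (lam * Real.log X * (Nat.totient (Wm X) / Wm X)) * VV δ X =
        4 * lam / δ * (VV δ X * ((Nat.totient (Wm X) : ℝ) / Wm X) * (δ * Real.log X)) := by
      field_simp
    have h12 : 4 * lam / δ * (VV δ X * ((Nat.totient (Wm X) : ℝ) / Wm X) * (δ * Real.log X)) ≤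
        4 * lam / δ * Cm := mul_le_mul_of_nonneg_left hVVC (by positivity)
    have h13 : 4 * lam / δ * Cm + 1 ≤ M / δ := by
      rw [div_mul_eq_mul_div, le_div_iff₀ hδ0, add_mul, div_mul_cancel₀ _ hδ0.ne']
      linarith
    have h14 : (M : ℝ) / δ ≤ ((M : ℝ) / δ) ^ M := by
      apply le_self_pow₀
      · rw [le_div_iff₀ hδ0]
        linarith
      · omega
    rw [hVinv, add_mul, h11]
    linarith
  have hcard : ∀ B' ⊆ BB X b0 ⌊Λ * Real.log X⌋₊, (B'.card : ℝ) ≤ Λ * Real.log X := by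
    intro B' hB'
    have h10 : B'.card ≤ ⌊Λ * Real.log X⌋₊ := by
      calc B'.card ≤ (BB X b0 ⌊Λ * Real.log X⌋₊).card := Finset.card_le_card hB'
        _ ≤ (Icc 1 ⌊Λ * Real.log X⌋₊).card := Finset.card_filter_le _ _
        _ = ⌊Λ * Real.log X⌋₊ := by rw [Nat.card_Icc]; omega
    exact (Nat.le_floor_iff (by positivity)).1 h10
  have hSP : ∀ n ∈ SP X b0 a₀, n < 2 * X := fun n hn =>
    (Finset.mem_Ico.1 (Finset.mem_filter.1 hn).1).2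
  obtain ⟨Ω, hΩdef⟩ : ∃ Ω : ℝ, Ω = Pr X / Nat.totient (Wm X) := ⟨_, rfl⟩
  have hΩ : 0 ≤ Ω := by
    rw [hΩdef]
    unfold Pr
    positivity
  obtain ⟨Er, hEq, hEs⟩ := h7 X hX7 b0 hb0 a₀ ha₀
  rw [← hΩdef] at hEq hEs ⊢
  have h12 := Finset.mem_Icc.1 (Finset.mem_filter.1 ha₀).1
  have h13 : 1 ≤ a₀ ∧ (a₀ : ℝ) ≤ Λ * Real.log X :=
    ⟨h12.1, (Nat.le_floor_iff (by positivity)).1 h12.2⟩
  obtain ⟨hc1, hc2⟩ := core2 (b0 := b0) (Λ := Λ) h4 hP hu hsum hθ hθ1 hδ0 hδ8 hKb hδb hV0 hV1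
    hd1 hX16 hKH hw1 hw2 hw3 hJ hPi hΛ hΛX
    (fun P hP U hU hU' o ho => h1 X hX1 P hP U hU hU' o ho) hSP hΩ hEq hEs D
  have hΩV : Ω * (cv / Real.log X) ≤ Ω * VV δ X := mul_le_mul_of_nonneg_left hVVlow hΩ
  have hΩV1 : Ω * VV δ X ≤ Ω := by nlinarith
  have hSz : 0 ≤ lam * Real.log X * ((Nat.totient (Wm X) : ℝ) / Wm X) := by positivity
  constructor
  · intro B hB hBc haB c hc
    have hB1 : (B.card : ℝ) * VV δ X ≤ 1 / V := by
      refine le_trans (mul_le_mul_of_nonneg_right ?_ hVVn) hsize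
      linarith
    have ho : ∀ a ∈ (some a₀ : Option ℕ), 1 ≤ a ∧ (a : ℝ) ≤ Λ * Real.log X ∧ a ∉ B := by
      intro a' ha'
      rw [Option.mem_def, Option.some.injEq] at ha'
      subst ha'
      exact ⟨h13.1, h13.2, haB⟩
    obtain ⟨k1, -, k3⟩ := hc1 B hB hB1 ho c hc
    obtain ⟨hL1, hab1⟩ := hab B.card (JJ δ X) (hcard B hB) hJ4
    obtain ⟨_, hab2⟩ := hab4 B.card (JJ δ X) (hcard B hB) hJ4
    refine ⟨k1.trans ?_, ?_, k3.trans ?_⟩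
    · have := ef_gen (n := t) (m := 4 * t + 2) hV0 hs hΩ hΩ (by omega) hb hd hab1
        (hΩV.trans hΩV1) hL0
      linarith
    · intro a ha hne
      rw [Finset.mem_sdiff] at ha
      have hBi : insert a B ⊆ BB X b0 ⌊Λ * Real.log X⌋₊ := Finset.insert_subset ha.1 hB
      have hBic : ((insert a B).card : ℝ) * VV δ X ≤ 1 / V := by
        refine le_trans (mul_le_mul_of_nonneg_right ?_ hVVn) hsize
        rw [Finset.card_insert_of_notMem ha.2]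
        push_cast
        linarith
      have ho' : ∀ a' ∈ (some a₀ : Option ℕ),
          1 ≤ a' ∧ (a' : ℝ) ≤ Λ * Real.log X ∧ a' ∉ insert a B := by
        intro a' ha'
        rw [Option.mem_def, Option.some.injEq] at ha'
        subst ha'
        refine ⟨h13.1, h13.2, ?_⟩
        rw [Finset.mem_insert, not_or]
        exact ⟨Ne.symm hne, haB⟩
      obtain ⟨-, k2, -⟩ := hc1 (insert a B) hBi hBic ho' c hc
      have h10 := k2 a (Finset.mem_insert_self _ _)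
      rw [Finset.erase_insert ha.2] at h10
      obtain ⟨-, hab3⟩ := hab (insert a B).card (JJ δ X) (hcard _ hBi) hJ4
      refine h10.trans ?_
      have := ef_gen (n := t) (m := 4 * t + 2) hV0 hs hΩ (mul_nonneg hΩ hVVn) (by omega) hb hd
        hab3 hΩV hL0
      linarith
    · have h10 := four_le hΩ hL1 hab2
      calc (K / V) ^ K * 2 ^ (4 * t * ⌊4 / δ⌋₊) *
          (Ω + ((B.card : ℝ) + 1) ^ (4 * t) * (((JJ δ X : ℝ) + 2) *
            (Ω / Real.log X ^ (4 * t + 6))))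
          ≤ (K / V) ^ K * 2 ^ (4 * t * ⌊4 / δ⌋₊) * (2 * Ω) := by
            gcongr
        _ = _ := by ring
  · intro B1 hB1 B2 hB2 hdisj hB1c hB2c haB
    have hU : B1 ∪ B2 ⊆ BB X b0 ⌊Λ * Real.log X⌋₊ := Finset.union_subset hB1 hB2
    have hUc : ((B1 ∪ B2).card : ℝ) * VV δ X ≤ 1 / V := by
      refine le_trans (mul_le_mul_of_nonneg_right ?_ hVVn) hsize
      have h10 : ((B1 ∪ B2).card : ℝ) ≤ B1.card + B2.card := by
        exact_mod_cast Finset.card_union_le B1 B2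
      linarith
    have ho : ∀ a ∈ (some a₀ : Option ℕ), 1 ≤ a ∧ (a : ℝ) ≤ Λ * Real.log X ∧ a ∉ B1 ∪ B2 := by
      intro a' ha'
      rw [Option.mem_def, Option.some.injEq] at ha'
      subst ha'
      exact ⟨h13.1, h13.2, haB⟩
    have k1 := hc2 B1 hB1 B2 hB2 hdisj hUc ho hcf
    obtain ⟨-, hab1⟩ := hab (B1 ∪ B2).card (JJ δ X) (hcard _ hU) hJ4
    have := ef_gen (n := t + t) (m := 4 * t + 2) hV0 hs hΩ hΩ (by omega) hb hd hab1
      (hΩV.trans hΩV1) hL0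
    have h10 := (abs_le.1 (k1.trans this)).2
    linarith

end Pool.Agent.Y833.LG
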