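import Mathlib

/-!
The second moment argument: if the weights `V j ^ 2`, `j < K`, are uncorrelated and are carried by
the points with `N j = 0`, then almost all points have `N j = 0` for some `j < K`.
-/

set_option autoImplicit false

open Finset

namespace Pool.Agent.Y833.LG

open Classical in
theorem absCS (S : Finset ℕ) (K : ℕ) (V : ℕ → ℕ → ℝ) (N : ℕ → ℕ → ℕ) (Z : ℕ → ℝ)
    (Ω s κ C : ℝ) (hK : 0 < K) (hΩ : 0 ≤ Ω) (hs : 0 ≤ s) (hκ : 0 ≤ κ) (hC : 0 ≤ C)
    (hZ : ∀ j < K, 1 ≤ Z j) (h0 : (S.card : ℝ) ≤ (1 + s) * Ω)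
    (h1 : ∀ j < K, (Z j - s) * Ω ≤ ∑ n ∈ S, V j n ^ 2)
    (h2 : ∀ j < K, ∑ n ∈ S, V j n ^ 2 * (N j n : ℝ) ≤ κ * Z j * Ω)
    (h3 : ∀ i < K, ∀ j < K, i ≠ j → ∑ n ∈ S, (V i n * V j n) ^ 2 ≤ (Z i * Z j + s) * Ω)
    (h4 : ∀ j < K, ∑ n ∈ S, V j n ^ 4 ≤ C * Ω) :
    ((S.filter (fun n => ∀ j < K, N j n ≠ 0)).card : ℝ) ≤ (4 * s + 2 * κ + C / K) * Ω := by
  have hK0 : (0 : ℝ) < K := by exact_mod_cast hK
  have hCK : 0 ≤ C / K := by positivity
  -- the trivial case
  by_cases hy : 1 - s - κ ≤ 0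
  · have h5 : ((S.filter (fun n => ∀ j < K, N j n ≠ 0)).card : ℝ) ≤ S.card := by
      exact_mod_cast card_filter_le _ _
    refine h5.trans (h0.trans ?_)
    apply mul_le_mul_of_nonneg_right _ hΩ
    linarith
  push Not at hy
  set W : ℕ → ℕ → ℝ := fun j n => if N j n = 0 then V j n ^ 2 / Z j else 0 with hW
  have hW0 : ∀ j < K, ∀ n, 0 ≤ W j n := by
    intro j hj n
    simp only [hW]
    split_ifs
    · have := hZ j hj
      positivity
    · exact le_rfl
  -- first moments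
  have hW1 : ∀ j < K, (1 - s - κ) * Ω ≤ ∑ n ∈ S, W j n := by
    intro j hj
    have hZj := hZ j hj
    have hZ0 : 0 < Z j := by linarith
    have e1 : ∀ n ∈ S, V j n ^ 2 / Z j - V j n ^ 2 * (N j n : ℝ) / Z j ≤ W j n := by
      intro n _
      simp only [hW]
      split_ifs with h
      · rw [h]; simp
      · have h5 : (1 : ℝ) ≤ N j n := by exact_mod_cast Nat.one_le_iff_ne_zero.2 h
        rw [← sub_div]
        apply div_nonpos_of_nonpos_of_nonneg _ hZ0.le
        nlinarith [sq_nonneg (V j n)]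
    have e2 := sum_le_sum e1
    rw [sum_sub_distrib, ← sum_div, ← sum_div] at e2
    refine le_trans ?_ e2
    have e3 : (Z j - s) * Ω / Z j ≤ (∑ n ∈ S, V j n ^ 2) / Z j :=
      div_le_div_of_nonneg_right (h1 j hj) hZ0.le
    have e4 : (∑ n ∈ S, V j n ^ 2 * (N j n : ℝ)) / Z j ≤ κ * Z j * Ω / Z j :=
      div_le_div_of_nonneg_right (h2 j hj) hZ0.le
    have e5 : κ * Z j * Ω / Z j = κ * Ω := by field_simp
    have e6 : (Z j - s) * Ω / Z j = Ω - s * Ω / Z j := by field_simp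
    have e7 : s * Ω / Z j ≤ s * Ω := div_le_self (by positivity) hZj
    rw [e5] at e4
    rw [e6] at e3
    linarith
  -- second moments
  have hW2 : ∀ i < K, ∀ j < K, ∑ n ∈ S, W i n * W j n ≤
      (if i = j then C * Ω else 0) + (1 + s) * Ω := by
    intro i hi j hj
    have hZi := hZ i hi
    have hZj := hZ j hj
    have hZi0 : 0 < Z i := by linarith
    have hZj0 : 0 < Z j := by linarith
    have hzz : 1 ≤ Z i * Z j := by nlinarith
    have e1 : ∑ n ∈ S, W i n * W j n ≤ (∑ n ∈ S, (V i n * V j n) ^ 2) / (Z i * Z j) := by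
      rw [sum_div]
      refine sum_le_sum fun n _ => ?_
      have e2 : W i n ≤ V i n ^ 2 / Z i := by
        simp only [hW]
        split_ifs
        · exact le_rfl
        · positivity
      have e3 : W j n ≤ V j n ^ 2 / Z j := by
        simp only [hW]
        split_ifs
        · exact le_rfl
        · positivity
      calc W i n * W j n ≤ V i n ^ 2 / Z i * (V j n ^ 2 / Z j) :=
            mul_le_mul e2 e3 (hW0 j hj n) (by positivity)
        _ = (V i n * V j n) ^ 2 / (Z i * Z j) := by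
            rw [mul_pow]
            field_simp
    by_cases hij : i = j
    · subst hij
      rw [if_pos rfl]
      have e2 : ∑ n ∈ S, (V i n * V i n) ^ 2 ≤ C * Ω := by
        refine le_trans (le_of_eq ?_) (h4 i hi)
        refine sum_congr rfl fun n _ => ?_
        ring
      have e3 : (∑ n ∈ S, (V i n * V i n) ^ 2) / (Z i * Z i) ≤ C * Ω := by
        refine le_trans ?_ e2
        apply div_le_self _ hzz
        exact sum_nonneg fun n _ => sq_nonneg _
      have e4 : 0 ≤ (1 + s) * Ω := by positivity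
      linarith
    · rw [if_neg hij, zero_add]
      refine e1.trans ?_
      rw [div_le_iff₀ (by positivity)]
      refine (h3 i hi j hj hij).trans ?_
      have e4 : Z i * Z j + s ≤ (1 + s) * (Z i * Z j) := by nlinarith
      calc (Z i * Z j + s) * Ω ≤ ((1 + s) * (Z i * Z j)) * Ω :=
            mul_le_mul_of_nonneg_right e4 hΩ
        _ = (1 + s) * Ω * (Z i * Z j) := by ring
  set F : ℕ → ℝ := fun n => ∑ j ∈ range K, W j n with hF
  have hF1 : K * ((1 - s - κ) * Ω) ≤ ∑ n ∈ S, F n := by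
    simp only [hF]
    rw [sum_comm]
    calc (K : ℝ) * ((1 - s - κ) * Ω) = ∑ _j ∈ range K, (1 - s - κ) * Ω := by
          rw [sum_const, card_range, nsmul_eq_mul]
      _ ≤ _ := sum_le_sum fun j hj => hW1 j (mem_range.1 hj)
  have hF2 : ∑ n ∈ S, F n ^ 2 ≤ K * (C * Ω) + K * (K * ((1 + s) * Ω)) := by
    have e1 : ∑ n ∈ S, F n ^ 2 = ∑ i ∈ range K, ∑ j ∈ range K, ∑ n ∈ S, W i n * W j n := by
      simp only [hF, sq, sum_mul_sum]
      rw [sum_comm]
      refine sum_congr rfl fun i _ => ?_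
      rw [sum_comm]
    rw [e1]
    calc ∑ i ∈ range K, ∑ j ∈ range K, ∑ n ∈ S, W i n * W j n ≤
        ∑ i ∈ range K, ∑ j ∈ range K, ((if i = j then C * Ω else 0) + (1 + s) * Ω) :=
          sum_le_sum fun i hi => sum_le_sum fun j hj => hW2 i (mem_range.1 hi) j (mem_range.1 hj)
      _ = _ := by
          simp only [sum_add_distrib, sum_const, card_range, nsmul_eq_mul]
          congr 1
          have : ∀ i ∈ range K, ∑ j ∈ range K, (if i = j then C * Ω else 0) = C * Ω := by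
            intro i hi
            rw [sum_ite_eq, if_pos hi]
          rw [sum_congr rfl this, sum_const, card_range, nsmul_eq_mul]
  -- the points where `F` is positive
  set E := S.filter (fun n => ∀ j < K, N j n ≠ 0) with hE
  have hFE : ∀ n ∈ E, F n = 0 := by
    intro n hn
    rw [hE, mem_filter] at hn
    simp only [hF]
    apply sum_eq_zero
    intro j hj
    simp only [hW]
    rw [if_neg (hn.2 j (mem_range.1 hj))]
  have hsum : ∑ n ∈ S, F n = ∑ n ∈ S \ E, F n := by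
    rw [← sum_sdiff (filter_subset _ S : E ⊆ S), sum_eq_zero hFE, add_zero]
  have hcs : (∑ n ∈ S \ E, F n) ^ 2 ≤ ((S \ E).card : ℝ) * ∑ n ∈ S \ E, F n ^ 2 :=
    sq_sum_le_card_mul_sum_sq
  have hF2' : ∑ n ∈ S \ E, F n ^ 2 ≤ K * (C * Ω) + K * (K * ((1 + s) * Ω)) :=
    (sum_le_sum_of_subset_of_nonneg sdiff_subset fun n _ _ => sq_nonneg _).trans hF2
  set x : ℝ := ((S \ E).card : ℝ) with hx
  have hx0 : 0 ≤ x := by rw [hx]; positivity
  have hxe : x + (E.card : ℝ) ≤ (1 + s) * Ω := by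
    refine le_trans (le_of_eq ?_) h0
    rw [hx]
    have := card_sdiff_add_card_eq_card (filter_subset _ S : E ⊆ S)
    exact_mod_cast this
  have hkey : (K * ((1 - s - κ) * Ω)) ^ 2 ≤ x * (K * (C * Ω) + K * (K * ((1 + s) * Ω))) := by
    have e1 : (K * ((1 - s - κ) * Ω)) ^ 2 ≤ (∑ n ∈ S \ E, F n) ^ 2 := by
      apply pow_le_pow_left₀ (by positivity)
      rw [← hsum]
      exact hF1
    exact (e1.trans hcs).trans (mul_le_mul_of_nonneg_left hF2' hx0)
  -- conclusion
  rcases hΩ.eq_or_lt with hΩ0 | hΩ0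
  · rw [← hΩ0] at hxe ⊢
    linarith
  set z : ℝ := s + C / K with hz
  have hz0 : 0 ≤ z := by positivity
  have hkey2 : (1 - s - κ) ^ 2 * Ω ≤ x * (1 + z) := by
    have e1 : (K * ((1 - s - κ) * Ω)) ^ 2 = (K ^ 2 * Ω) * ((1 - s - κ) ^ 2 * Ω) := by ring
    have e2 : x * (K * (C * Ω) + K * (K * ((1 + s) * Ω))) = (K ^ 2 * Ω) * (x * (1 + z)) := by
      rw [hz]
      field_simp
      ring
    rw [e1, e2] at hkey
    exact le_of_mul_le_mul_left hkey (by positivity)
  have hfin : (1 - 2 * (s + κ) - z) * Ω ≤ x := by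
    have e1 : (1 - 2 * (s + κ) - z) * (1 + z) ≤ (1 - s - κ) ^ 2 := by
      have : 0 ≤ (s + κ) * z := by positivity
      nlinarith [sq_nonneg (s + κ), sq_nonneg z]
    have e2 : ((1 - 2 * (s + κ) - z) * Ω) * (1 + z) ≤ x * (1 + z) := by
      calc ((1 - 2 * (s + κ) - z) * Ω) * (1 + z) = ((1 - 2 * (s + κ) - z) * (1 + z)) * Ω := by ring
        _ ≤ (1 - s - κ) ^ 2 * Ω := mul_le_mul_of_nonneg_right e1 hΩ
        _ ≤ _ := hkey2
    exact le_of_mul_le_mul_right e2 (by positivity)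
  have e3 : (4 * s + 2 * κ + C / K) * Ω = (1 + s) * Ω - (1 - 2 * (s + κ) - z) * Ω := by
    rw [hz]; ring
  rw [e3]
  linarith

end Pool.Agent.Y833.LG
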