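import Pool.Agent.H361R2.PP.Main3
import Pool.Agent.Y833.LG.Asy
import Pool.Agent.Y833.LG.CS

/-!
One class: almost all primes of the class are followed by an empty block.
-/

set_option autoImplicit false

open Finset

namespace Pool.Agent.Y833.LG

open Pool.Agent.H361R2.PP
open Pool.Agent.H410R2.AC (wt GG cfg term WW pos Inj coef)

/-- repelling data -/
structure Rep {t : ℕ} {u : Fin t → ℝ} {δ : ℝ} {X : ℕ} (β : Fin t → ℝ) (D : Dat t u 1 δ X) :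
    Prop where
  β0 : ∀ τ, 0 ≤ β τ
  β1 : ∑ τ, β τ = 1
  gg : ∀ τ, 0 < GG (D.S τ)
  g : ∀ τ, D.g τ = β τ / GG (D.S τ)
  cf : ∀ a, D.cf a = -1
  pJ : 2 ^ 2 ^ JJ δ X ≤ X
  v0 : 0 ≤ VV δ X

section

variable {t : ℕ} {u : Fin t → ℝ} {δ : ℝ} {X : ℕ} {β : Fin t → ℝ} {D : Dat t u 1 δ X}

theorem xx_pr (h : Rep β D) {n a : ℕ} (hn : X ≤ n) (ha : 1 ≤ a)
    (hp : (n + a).Prime) (τ : Fin t) : xx D n τ a = D.cf a * β τ := by
  unfold xx
  rw [rg_prime (P1_lt h.pJ hn ha) hp, FS_prime (P2_lt hn ha) (fun R hR => (D.hS τ R hR).1) hp,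
    h.g τ, one_mul]
  have := (h.gg τ).ne'
  field_simp

theorem spec_pr (h : Rep β D) {θ : ℝ} {n a : ℕ} (hn : X ≤ n) (ha : 1 ≤ a)
    (hp : (n + a).Prime) : spec δ θ X a n = GG (S1 δ θ X) := by
  unfold spec
  rw [rg_prime (P1_lt h.pJ hn ha) hp, FS_prime (P2_lt hn ha) S1_sub hp, one_mul]

theorem WW_empty (x : Fin t → ℕ → ℝ) : WW ∅ (fun _ => 1) x = 1 := by
  classical
  have h1 : cfg t ∅ = {fun _ => none} := by
    ext σ
    rw [Pool.Agent.H898R2.AC5.mem_cfg, mem_singleton]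
    constructor
    · intro h
      funext τ
      cases hτ : σ τ with
      | none => rfl
      | some a => exact absurd (h.1 τ a hτ) (notMem_empty _)
    · rintro rfl
      exact ⟨fun τ a h => by simp at h, fun τ τ' a h _ => by simp at h⟩
  unfold WW
  rw [h1, sum_singleton]
  unfold term
  simp

theorem ZZ_empty : ZZ D ∅ (fun _ => 1) = 1 := by
  rw [ZZ_WW, WW_empty]

theorem E2p (h : Rep β D) (hX : 1 ≤ X) {θ s η : ℝ} (hθ : θ ≤ 1 / 32) (hs : 0 ≤ s) (hη0 : 0 ≤ η)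
    {b a₀ a : ℕ} {B : Finset ℕ} {Ω : ℝ} (hΩ : 0 ≤ Ω) (ha : a ∈ B) (ha1 : 1 ≤ a)
    (hη : ∀ τ, ∑ a ∈ B, qq D τ a ≤ η)
    (hsm : |∑ n ∈ SP X b a₀, (spec δ θ X a n * WW (B.erase a) (coef β) (xx D n)) ^ 2 -
        Ω * (VV δ X * GG (S1 δ θ X) * ZZ D (B.erase a) (coef β))| ≤ s * (Ω * VV δ X)) :
    ∑ n ∈ (SP X b a₀).filter (fun n => (n + a).Prime), WW B (fun _ => 1) (xx D n) ^ 2 ≤
      Ω * (VV δ X / GG (S1 δ θ X)) * ((η + s) * ZZ D B (fun _ => 1)) := by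
  set G := GG (S1 δ θ X) with hG
  have hG1 : 1 ≤ G := GG1_ge hX hθ
  have hGy : ∀ y : ℝ, y ^ 2 = 1 / G ^ 2 * (G * y) ^ 2 := by
    intro y
    have : G ≠ 0 := by linarith
    field_simp
  have hcob := (Pool.Agent.H872R2.PPCol.cob t β h.β0 h.β1)
  set B' := B.erase a with hB'
  have hB's : B' ⊆ B := erase_subset _ _
  have hco : co1 (-1) β = coef β := by
    funext σ
    exact (hcob.1 σ).1
  have h1 : ∑ n ∈ (SP X b a₀).filter (fun n => (n + a).Prime), WW B (fun _ => 1) (xx D n) ^ 2 ≤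
      1 / G ^ 2 * ∑ n ∈ SP X b a₀, (spec δ θ X a n * WW B' (coef β) (xx D n)) ^ 2 := by
    rw [mul_sum]
    calc ∑ n ∈ (SP X b a₀).filter (fun n => (n + a).Prime), WW B (fun _ => 1) (xx D n) ^ 2 =
        ∑ n ∈ (SP X b a₀).filter (fun n => (n + a).Prime),
          1 / G ^ 2 * (spec δ θ X a n * WW B' (coef β) (xx D n)) ^ 2 := by
          refine sum_congr rfl fun n hn => ?_
          rw [mem_filter, mem_SP] at hn
          rw [(Pool.Agent.H872R2.PPCol.col t B β (xx D n) D.cf).1 a ha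
            (fun τ => xx_pr h hn.1.1 ha1 hn.2 τ), h.cf a, hco, spec_pr h hn.1.1 ha1 hn.2]
          exact hGy _
      _ ≤ _ := sum_le_sum_of_subset_of_nonneg (filter_subset _ _) fun n _ _ => by positivity
  obtain ⟨hM1, -, hM⟩ := Pool.Agent.H433R2.PPMni.mni t B β (qq D) η hη0 h.β0 h.β1
    (fun τ a => qq_nonneg h.v0 τ a) hη
  obtain ⟨-, hm2, -, -⟩ := hM B' hB's
  rw [ZZ_one]
  set M := ∑ σ ∈ cfg t B, term (qq D) σ with hMdef
  have hV := h.v0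
  have hΩVG : 0 ≤ Ω * (VV δ X * G) :=
    mul_nonneg hΩ (mul_nonneg hV (zero_le_one.trans hG1))
  have hup : ZZ D B' (coef β) ≤ η * M := hm2
  have h4 := (abs_le.1 hsm).2
  have hM0 : 0 ≤ M := by linarith
  refine h1.trans ?_
  have h5 : ∑ n ∈ SP X b a₀, (spec δ θ X a n * WW B' (coef β) (xx D n)) ^ 2 ≤
      Ω * (VV δ X * G) * ((η + s) * M) := by
    have h6 : s * (Ω * VV δ X) ≤ Ω * (VV δ X * G) * s := by
      have h0 : 0 ≤ s * (Ω * VV δ X) := mul_nonneg hs (mul_nonneg hΩ hV)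
      calc s * (Ω * VV δ X) = s * (Ω * VV δ X) * 1 := by ring
        _ ≤ s * (Ω * VV δ X) * G := mul_le_mul_of_nonneg_left hG1 h0
        _ = _ := by ring
    have h7 : Ω * (VV δ X * G * ZZ D B' (coef β)) ≤ Ω * (VV δ X * G) * (η * M) := by
      rw [← mul_assoc]
      exact mul_le_mul_of_nonneg_left hup hΩVG
    have h8 : Ω * (VV δ X * G) * s ≤ Ω * (VV δ X * G) * (s * M) := by
      apply mul_le_mul_of_nonneg_left _ hΩVG
      nlinarith
    have h9 : Ω * (VV δ X * G) * ((η + s) * M) =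
      Ω * (VV δ X * G) * (η * M) + Ω * (VV δ X * G) * (s * M) := by
      ring
    rw [h9]
    linarith
  calc 1 / G ^ 2 * ∑ n ∈ SP X b a₀, (spec δ θ X a n * WW B' (coef β) (xx D n)) ^ 2
      ≤ 1 / G ^ 2 * (Ω * (VV δ X * G) * ((η + s) * M)) :=
        mul_le_mul_of_nonneg_left h5 (by positivity)
    _ = _ := by
        have : G ≠ 0 := by linarith
        field_simp

/-- counting primes, first moment over the primes of a class -/
theorem moment1p (X b a₀ : ℕ) (A : Finset ℕ) (w : ℕ → ℝ) :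
    ∑ n ∈ SP X b a₀, w n * (Np A n : ℝ) =
      ∑ a ∈ A, ∑ n ∈ (SP X b a₀).filter (fun n => (n + a).Prime), w n := by
  have h1 : ∀ n ∈ SP X b a₀, w n * (Np A n : ℝ) =
      ∑ a ∈ A, if (n + a).Prime then w n else 0 := by
    intro n _
    unfold Np
    rw [← sum_filter, sum_const, nsmul_eq_mul, mul_comm]
  rw [sum_congr rfl h1, sum_comm]
  refine sum_congr rfl fun a _ => ?_
  rw [sum_filter]

/-- one class: for almost all primes `n + a₀` of the class one of the blocks `n + Bs j` contains no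
prime -/
theorem cls_one (h : Rep β D) (hX : 1 ≤ X) (hL : 0 < Real.log X) {Λ lam θ s η C : ℝ}
    (hlam : 0 < lam) (hθ : θ ≤ 1 / 32) (hs : 0 ≤ s) (hη0 : 0 ≤ η) (hC : 0 ≤ C)
    {b a₀ : ℕ} (K : ℕ) (hK : 0 < K) (Bs : ℕ → Finset ℕ)
    (hBs : ∀ j < K, Bs j ⊆ BB X b ⌊Λ * Real.log X⌋₊)
    (hBc : ∀ j < K, ((Bs j).card : ℝ) ≤ 2 * (lam * Real.log X * (Nat.totient (Wm X) / Wm X)))
    (hBa : ∀ j < K, a₀ ∉ Bs j)
    (hBd : ∀ i < K, ∀ j < K, i ≠ j → Disjoint (Bs i) (Bs j))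
    (hη : ∀ j < K, ∀ τ, ∑ a ∈ Bs j, qq D τ a ≤ η)
    (hVG : VV δ X / GG (S1 δ θ X) * (((Nat.totient (Wm X) : ℝ) / Wm X) *
      ((1 / 4 - 3 * θ) * Real.log X)) ≤ 1)
    (hm1 : ∀ B ⊆ BB X b ⌊Λ * Real.log X⌋₊,
      (B.card : ℝ) ≤ 2 * (lam * Real.log X * (Nat.totient (Wm X) / Wm X)) → a₀ ∉ B →
      ∀ c : (Fin t → Option ℕ) → ℝ, (∀ σ, |c σ| ≤ 1) →
      |∑ n ∈ SP X b a₀, WW B c (xx D n) ^ 2 - Pr X / Nat.totient (Wm X) * ZZ D B c| ≤
          s * (Pr X / Nat.totient (Wm X)) ∧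
      (∀ a ∈ BB X b ⌊Λ * Real.log X⌋₊ \ B, a ≠ a₀ →
        |∑ n ∈ SP X b a₀, (spec δ θ X a n * WW B c (xx D n)) ^ 2 -
          Pr X / Nat.totient (Wm X) * (VV δ X * GG (S1 δ θ X) * ZZ D B c)| ≤
          s * (Pr X / Nat.totient (Wm X) * VV δ X)) ∧
      ∑ n ∈ SP X b a₀, WW B c (xx D n) ^ 4 ≤ C * (Pr X / Nat.totient (Wm X)))
    (hm2 : ∀ B1 ⊆ BB X b ⌊Λ * Real.log X⌋₊, ∀ B2 ⊆ BB X b ⌊Λ * Real.log X⌋₊, Disjoint B1 B2 →
      (B1.card : ℝ) ≤ 2 * (lam * Real.log X * (Nat.totient (Wm X) / Wm X)) →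
      (B2.card : ℝ) ≤ 2 * (lam * Real.log X * (Nat.totient (Wm X) / Wm X)) →
      a₀ ∉ B1 ∪ B2 →
      ∑ n ∈ SP X b a₀, (WW B1 (fun _ => 1) (xx D n) * WW B2 (fun _ => 1) (xx D n)) ^ 2 ≤
        Pr X / Nat.totient (Wm X) * (ZZ D B1 (fun _ => 1) * ZZ D B2 (fun _ => 1) + s)) :
    (((SP X b a₀).filter (fun n => ∀ j < K, Np (Bs j) n ≠ 0)).card : ℝ) ≤
      (4 * s + 2 * (13 * lam * (η + s)) + C / K) * (Pr X / Nat.totient (Wm X)) := by
  classical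
  obtain ⟨Ω, hΩdef⟩ : ∃ Ω : ℝ, Ω = Pr X / Nat.totient (Wm X) := ⟨_, rfl⟩
  have hΩ : 0 ≤ Ω := by rw [hΩdef]; exact Om'_nonneg X
  rw [← hΩdef] at hm1 hm2 ⊢
  have hSz : 0 ≤ lam * Real.log X * ((Nat.totient (Wm X) : ℝ) / Wm X) := by positivity
  have hG1 : 1 ≤ GG (S1 δ θ X) := GG1_ge hX hθ
  have hcob := (Pool.Agent.H872R2.PPCol.cob t β h.β0 h.β1)
  have hcoef : ∀ σ, |coef β σ| ≤ 1 := by
    intro σ
    obtain ⟨-, h1, h2⟩ := hcob.1 σ
    rw [abs_of_nonneg h1]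
    exact h2
  have hZ1 : ∀ j < K, 1 ≤ ZZ D (Bs j) (fun _ => 1) := by
    intro j hj
    rw [ZZ_one]
    exact (Pool.Agent.H433R2.PPMni.mni t (Bs j) β (qq D) η hη0 h.β0 h.β1
      (fun τ a => qq_nonneg h.v0 τ a) (hη j hj)).1
  refine absCS (SP X b a₀) K (fun j n => WW (Bs j) (fun _ => 1) (xx D n))
    (fun j n => Np (Bs j) n) (fun j => ZZ D (Bs j) (fun _ => 1)) Ω s (13 * lam * (η + s)) C hK hΩ
    hs (by positivity) hC hZ1 ?_ ?_ ?_ ?_ ?_
  · have h1 := (hm1 ∅ (empty_subset _) (by simpa using hSz) (notMem_empty _) (fun _ => 1)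
      (fun _ => by simp)).1
    simp only [WW_empty, one_pow, sum_const, nsmul_eq_mul, mul_one, ZZ_empty] at h1
    linarith [(abs_le.1 h1).2]
  · intro j hj
    have h1 := (hm1 (Bs j) (hBs j hj) (hBc j hj) (hBa j hj) (fun _ => 1) (fun _ => by simp)).1
    have h2 := (abs_le.1 h1).1
    have h3 : (ZZ D (Bs j) (fun _ => 1) - s) * Ω = Ω * ZZ D (Bs j) (fun _ => 1) - s * Ω := by ring
    rw [h3]
    linarith
  · intro j hj
    show ∑ n ∈ SP X b a₀, WW (Bs j) (fun _ => 1) (xx D n) ^ 2 * (Np (Bs j) n : ℝ) ≤ _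
    rw [moment1p]
    obtain ⟨T, hT⟩ : ∃ T : ℝ, T = Ω * (VV δ X / GG (S1 δ θ X)) *
      ((η + s) * ZZ D (Bs j) (fun _ => 1)) := ⟨_, rfl⟩
    have hV0 := h.v0
    have hZj := hZ1 j hj
    have hv0 : 0 ≤ VV δ X / GG (S1 δ θ X) := div_nonneg hV0 (by linarith)
    have hT0 : 0 ≤ T := by
      rw [hT]
      have : 0 ≤ (η + s) * ZZ D (Bs j) (fun _ => 1) := mul_nonneg (by linarith) (by linarith)
      positivity
    have h5 : ∑ a ∈ Bs j, ∑ n ∈ (SP X b a₀).filter (fun n => (n + a).Prime),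
        WW (Bs j) (fun _ => 1) (xx D n) ^ 2 ≤ ∑ _a ∈ Bs j, T := by
      refine sum_le_sum fun a ha => ?_
      rw [hT]
      have haBB := hBs j hj ha
      have ha0 : a ≠ a₀ := fun e => hBa j hj (e ▸ ha)
      refine E2p h hX hθ hs hη0 hΩ ha (mem_BB.1 haBB).1 (hη j hj) ?_
      refine (hm1 ((Bs j).erase a) ((erase_subset _ _).trans (hBs j hj)) ?_ ?_ (coef β) hcoef).2.1
        a ?_ ha0
      · refine le_trans ?_ (hBc j hj)
        exact_mod_cast card_le_card (erase_subset _ _)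
      · exact fun e => hBa j hj (mem_of_mem_erase e)
      · rw [mem_sdiff]
        exact ⟨haBB, notMem_erase _ _⟩
    refine h5.trans ?_
    rw [sum_const, nsmul_eq_mul]
    refine (mul_le_mul_of_nonneg_right (hBc j hj) hT0).trans ?_
    set f : ℝ := (Nat.totient (Wm X) : ℝ) / Wm X with hf
    set v := VV δ X / GG (S1 δ θ X) with hv
    have h6 : v * (f * Real.log X) ≤ 32 / 5 := by
      have h7 : 0 ≤ v * (f * Real.log X) := by positivity
      have h8 : (5 / 32 : ℝ) ≤ 1 / 4 - 3 * θ := by linarith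
      have h9 : v * (f * Real.log X) * (5 / 32) ≤ v * (f * Real.log X) * (1 / 4 - 3 * θ) :=
        mul_le_mul_of_nonneg_left h8 h7
      have h10 : v * (f * Real.log X) * (1 / 4 - 3 * θ) =
          v * (f * ((1 / 4 - 3 * θ) * Real.log X)) := by ring
      rw [h10] at h9
      linarith
    have h7 : 2 * (lam * Real.log X * f) * T = (v * (f * Real.log X)) *
        (2 * lam * (η + s) * ZZ D (Bs j) (fun _ => 1) * Ω) := by
      rw [hT]; ring
    rw [h7]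
    have h8 : 0 ≤ 2 * lam * (η + s) * ZZ D (Bs j) (fun _ => 1) * Ω := by
      have : 0 ≤ ZZ D (Bs j) (fun _ => 1) := by linarith
      positivity
    calc (v * (f * Real.log X)) * (2 * lam * (η + s) * ZZ D (Bs j) (fun _ => 1) * Ω) ≤
        32 / 5 * (2 * lam * (η + s) * ZZ D (Bs j) (fun _ => 1) * Ω) :=
          mul_le_mul_of_nonneg_right h6 h8
      _ ≤ 13 / 2 * (2 * lam * (η + s) * ZZ D (Bs j) (fun _ => 1) * Ω) :=
          mul_le_mul_of_nonneg_right (by norm_num) h8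
      _ = _ := by ring
  · intro i hi j hj hij
    have h1 := hm2 (Bs i) (hBs i hi) (Bs j) (hBs j hj) (hBd i hi j hj hij) (hBc i hi) (hBc j hj)
      (by
        rw [mem_union, not_or]
        exact ⟨hBa i hi, hBa j hj⟩)
    linarith
  · intro j hj
    exact (hm1 (Bs j) (hBs j hj) (hBc j hj) (hBa j hj) (fun _ => 1) (fun _ => by simp)).2.2

end

end Pool.Agent.Y833.LG
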