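import Mathlib

/-!
The one-sided maximal inequality for sets of integers of small density.
-/

set_option autoImplicit false

open Finset

namespace Pool.Agent.Y833.LG

open Classical in
/-- the number of elements of `A` in `[n, n + k)` -/
noncomputable def cnt (A : ℕ → Prop) (n k : ℕ) : ℕ := ((Ico n (n + k)).filter A).card

theorem cnt_add (A : ℕ → Prop) (n k l : ℕ) : cnt A n (k + l) = cnt A n k + cnt A (n + k) l := by
  classical
  unfold cnt
  have h : Ico n (n + (k + l)) = Ico n (n + k) ∪ Ico (n + k) (n + k + l) := by
    rw [Ico_union_Ico_eq_Ico (by omega) (by omega), add_assoc]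
  rw [h, filter_union, card_union_of_disjoint]
  apply disjoint_filter_filter
  exact Ico_disjoint_Ico_consecutive _ _ _

theorem cnt_le (A : ℕ → Prop) (n k : ℕ) : cnt A n k ≤ k := by
  classical
  unfold cnt
  refine (card_filter_le _ _).trans ?_
  rw [Nat.card_Ico]
  omega

open Classical in
theorem max_aux (A : ℕ → Prop) (N M : ℕ) (E : ℕ → Prop)
    (hE : ∀ n < N, E n → ∃ k, 1 ≤ k ∧ n + k ≤ M ∧ k ≤ 2 * cnt A n k) (hNM : N ≤ M) (r : ℕ) :
    ∀ n : ℕ, n + r = N → ((Ico n N).filter E).card ≤ 2 * cnt A n (M - n) := by
  induction r using Nat.strong_induction_on with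
  | _ r ih =>
    intro n hn
    rcases Nat.eq_zero_or_pos r with h0 | h0
    · have h1 : Ico n N = ∅ := by
        rw [Ico_eq_empty_iff]; omega
      rw [h1, filter_empty, card_empty]
      exact Nat.zero_le _
    · by_cases hEn : E n
      · obtain ⟨k, hk1, hkM, hk⟩ := hE n (by omega) hEn
        have h1 : cnt A n (M - n) = cnt A n k + cnt A (n + k) (M - (n + k)) := by
          rw [← cnt_add]
          congr 1
          omega
        rw [h1, mul_add]
        by_cases hkN : n + k ≤ N
        · have h2 := ih (r - k) (by omega) (n + k) (by omega)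
          have h3 : Ico n N = Ico n (n + k) ∪ Ico (n + k) N := by
            rw [Ico_union_Ico_eq_Ico (by omega) (by omega)]
          have h4 : ((Ico n N).filter E).card ≤ ((Ico n (n + k)).filter E).card +
              ((Ico (n + k) N).filter E).card := by
            rw [h3, filter_union]
            exact card_union_le _ _
          have h5 : ((Ico n (n + k)).filter E).card ≤ k := by
            refine (card_filter_le _ _).trans ?_
            rw [Nat.card_Ico]
            omega
          omega
        · have h5 : ((Ico n N).filter E).card ≤ N - n := by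
            refine (card_filter_le _ _).trans ?_
            rw [Nat.card_Ico]
          omega
      · have h2 := ih (r - 1) (by omega) (n + 1) (by omega)
        have h3 : (Ico n N).filter E = (Ico (n + 1) N).filter E := by
          ext x
          rw [mem_filter, mem_filter, mem_Ico, mem_Ico]
          constructor
          · rintro ⟨h4, h5⟩
            refine ⟨⟨?_, h4.2⟩, h5⟩
            rcases Nat.lt_or_ge n x with h6 | h6
            · exact h6
            · exfalso
              have : x = n := by omega
              rw [this] at h5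
              exact hEn h5
          · rintro ⟨h4, h5⟩
            exact ⟨⟨by omega, h4.2⟩, h5⟩
        rw [h3]
        refine h2.trans ?_
        have h6 : cnt A n (M - n) = cnt A n 1 + cnt A (n + 1) (M - (n + 1)) := by
          rw [← cnt_add]
          congr 1
          omega
        omega

open Classical in
/-- if `A` has upper density less than `ε ≤ 1 / 8`, then for all but `4 ε N` integers `n < N` the set
`A` has at most `k / 2` elements in every interval `[n, n + k)` -/
theorem max_ineq (A : ℕ → Prop) (ε : ℝ) (hε : 0 < ε) (hε1 : ε ≤ 1 / 8) (M₀ : ℕ)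
    (h : ∀ M : ℕ, M₀ ≤ M → (cnt A 0 M : ℝ) ≤ ε * M) (N : ℕ) (hN : M₀ ≤ N) :
    (((range N).filter (fun n => ¬ ∀ k : ℕ, 2 * cnt A n k ≤ k)).card : ℝ) ≤ 4 * ε * N := by
  have h1 : ∀ n < N, (¬ ∀ k : ℕ, 2 * cnt A n k ≤ k) →
      ∃ k, 1 ≤ k ∧ n + k ≤ 2 * N ∧ k ≤ 2 * cnt A n k := by
    intro n hn hne
    push Not at hne
    obtain ⟨k, hk⟩ := hne
    refine ⟨k, ?_, ?_, hk.le⟩
    · by_contra hcon
      have : k = 0 := by omega
      subst this
      have := cnt_le A n 0
      omega
    · by_contra hcon
      push Not at hcon
      have h2 := h (n + k) (by omega)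
      have h3 : cnt A 0 (n + k) = cnt A 0 n + cnt A (0 + n) k := cnt_add A 0 n k
      rw [zero_add] at h3
      have h4 : cnt A n k ≤ cnt A 0 (n + k) := by omega
      have h5 : (cnt A n k : ℝ) ≤ ε * (n + k : ℕ) := le_trans (by exact_mod_cast h4) h2
      have h6 : (k : ℝ) < 2 * cnt A n k := by exact_mod_cast hk
      have h7 : (n : ℝ) < k := by
        have : n < k := by omega
        exact_mod_cast this
      push_cast at h5
      have h8 : ε * ((n : ℝ) + k) ≤ 1 / 8 * ((n : ℝ) + k) :=
        mul_le_mul_of_nonneg_right hε1 (by positivity)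
      linarith
  have h2 := max_aux A N (2 * N) (fun n => ¬ ∀ k : ℕ, 2 * cnt A n k ≤ k) h1 (by omega) N 0
    (by omega)
  rw [Nat.sub_zero] at h2
  have h3 := h (2 * N) (by omega)
  have h4 : ((range N).filter (fun n => ¬ ∀ k : ℕ, 2 * cnt A n k ≤ k)).card ≤
      2 * cnt A 0 (2 * N) := by
    have : range N = Ico 0 N := by rw [range_eq_Ico]
    rw [this]
    convert h2
  have h5 : (((range N).filter (fun n => ¬ ∀ k : ℕ, 2 * cnt A n k ≤ k)).card : ℝ) ≤
      2 * cnt A 0 (2 * N) := by exact_mod_cast h4
  push_cast at h3
  linarith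

end Pool.Agent.Y833.LG
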