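import Pool.Agent.Y833.LG.Idx
import Pool.Agent.Y833.LG.Max

/-!
The indices `m` for which none of the gaps `m, …, m + k` is large have small upper density, and the
final theorem.
-/

set_option autoImplicit false

open Finset

namespace Pool.Agent.Y833.LG

open Pool.Agent.H361R2.PP
open Pool.Agent.H30R2.PP (P_mono P_prime P_succ_le P_count)

theorem pr_ratio : ∃ k₀ : ℕ, ∀ k : ℕ, k₀ ≤ k →
    3 * Pr (2 ^ k) ≤ 2 * Pr (2 ^ (k + 1)) ∧ Pr (2 ^ (k + 1)) ≤ 3 * Pr (2 ^ k) := by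
  obtain ⟨X₀, h⟩ := Pool.Agent.H325R2.pnt (1 / 20) (by norm_num)
  refine ⟨X₀ + 10, fun k hk => ?_⟩
  have hlt : ∀ j : ℕ, j ≤ 2 ^ j := fun j => Nat.lt_two_pow_self.le
  have h1 := h (2 ^ k) (by have := hlt k; omega)
  have h2 := h (2 ^ (k + 1)) (by have := hlt (k + 1); omega)
  push_cast at h1 h2
  rw [Real.log_pow] at h1 h2
  have hl : 0 < Real.log 2 := Real.log_pos (by norm_num)
  set l := Real.log 2 with hldef
  have hk10 : (10 : ℝ) ≤ k := by exact_mod_cast (by omega : 10 ≤ k)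
  have hpow : (2 : ℝ) ^ (k + 1) = 2 * 2 ^ k := by ring
  rw [hpow] at h2
  push_cast at h2
  obtain ⟨h1a, h1b⟩ := abs_le.1 h1
  obtain ⟨h2a, h2b⟩ := abs_le.1 h2
  set T : ℝ := (2 : ℝ) ^ k with hT
  have hT0 : 0 < T := by positivity
  have hkl : 0 < (k : ℝ) * l := by positivity
  constructor
  · -- 3 Pr(2^k) ≤ 2 Pr(2^(k+1))
    have h3 : 3 * Pr (2 ^ k) * (k * l) ≤ 3 * (21 / 20 * T) := by linarith
    have h4 : 19 / 20 * (2 * T) ≤ Pr (2 ^ (k + 1)) * ((k + 1) * l) := by linarith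
    have hP0 : 0 ≤ Pr (2 ^ (k + 1)) := by unfold Pr; positivity
    have h5 : Pr (2 ^ (k + 1)) * ((k + 1) * l) ≤ Pr (2 ^ (k + 1)) * (11 / 10 * (k * l)) := by
      apply mul_le_mul_of_nonneg_left _ hP0
      nlinarith
    have h6 : 3 * Pr (2 ^ k) * (k * l) ≤ 2 * Pr (2 ^ (k + 1)) * (k * l) := by
      nlinarith
    exact le_of_mul_le_mul_right h6 hkl
  · have h3 : 19 / 20 * T ≤ Pr (2 ^ k) * (k * l) := by linarith
    have h4 : Pr (2 ^ (k + 1)) * ((k + 1) * l) ≤ 21 / 20 * (2 * T) := by linarith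
    have hP0 : 0 ≤ Pr (2 ^ (k + 1)) := by unfold Pr; positivity
    have h5 : Pr (2 ^ (k + 1)) * (k * l) ≤ Pr (2 ^ (k + 1)) * ((k + 1) * l) := by
      apply mul_le_mul_of_nonneg_left _ hP0
      nlinarith
    have h6 : Pr (2 ^ (k + 1)) * (k * l) ≤ 3 * Pr (2 ^ k) * (k * l) := by
      nlinarith
    exact le_of_mul_le_mul_right h6 hkl

theorem geom_sum_pr {k₀ : ℕ} (h : ∀ k : ℕ, k₀ ≤ k → 3 * Pr (2 ^ k) ≤ 2 * Pr (2 ^ (k + 1)))
    (k : ℕ) (hk : k₀ ≤ k) : ∑ j ∈ Icc k₀ k, Pr (2 ^ j) ≤ 3 * Pr (2 ^ k) := by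
  induction k, hk using Nat.le_induction with
  | base =>
    rw [Icc_self, sum_singleton]
    have : 0 ≤ Pr (2 ^ k₀) := by unfold Pr; positivity
    linarith
  | succ k hk ih =>
    have e1 : Icc k₀ (k + 1) = insert (k + 1) (Icc k₀ k) := by
      ext x
      rw [mem_insert, mem_Icc, mem_Icc]
      omega
    rw [e1, sum_insert (by rw [mem_Icc]; omega)]
    have := h k hk
    linarith

open Classical in
theorem bad_dens (lam ε : ℝ) (hlam : 0 < lam) (hε : 0 < ε) : ∃ k : ℕ, ∃ M₀ : ℕ, ∀ M : ℕ,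
    M₀ ≤ M → (cnt (Bad lam k) 0 M : ℝ) ≤ ε * M := by
  obtain ⟨k, X₀, h⟩ := dyad lam (ε / 18) hlam (by positivity)
  obtain ⟨k₀, hr⟩ := pr_ratio
  obtain ⟨k₁, hk₁⟩ : ∃ k₁ : ℕ, k₁ = k₀ + X₀ := ⟨_, rfl⟩
  obtain ⟨M₁, hM₁⟩ := exists_nat_ge (((2 : ℝ) ^ k₁ + 1) / (ε / 2))
  refine ⟨k, M₁ + 2 ^ (k₁ + 1) + 1, fun M hM => ?_⟩
  have hlt : ∀ j : ℕ, j ≤ 2 ^ j := fun j => Nat.lt_two_pow_self.le
  have hMP : M ≤ P M := P_mono.le_apply
  -- the last dyadic interval
  obtain ⟨κ, hκ⟩ : ∃ κ : ℕ, κ = Nat.log 2 (P M - 1) := ⟨_, rfl⟩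
  have h2k : 1 ≤ 2 ^ k₁ := Nat.one_le_two_pow
  have hPM : P M - 1 ≠ 0 := by omega
  have hκ1 : 2 ^ κ ≤ P M - 1 := by rw [hκ]; exact Nat.pow_log_le_self 2 hPM
  have hκ2 : P M - 1 < 2 ^ (κ + 1) := by
    rw [hκ]; exact Nat.lt_pow_succ_log_self (by norm_num) _
  have hκk : k₁ + 1 ≤ κ := by
    rw [hκ]
    apply Nat.le_log_of_pow_le (by norm_num)
    omega
  set E := (Ico 0 (0 + M)).filter (Bad lam k) with hE
  have hcover : E ⊆ E.filter (fun m => P m ≤ 2 ^ k₁) ∪
      (Icc k₁ κ).biUnion (fun j => E.filter (fun m => 2 ^ j + 1 ≤ P m ∧ P m < 2 * 2 ^ j + 1)) := by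
    intro m hm
    rw [mem_union, mem_filter, mem_biUnion]
    by_cases hc : P m ≤ 2 ^ k₁
    · exact Or.inl ⟨hm, hc⟩
    · right
      push Not at hc
      have hm' := mem_filter.1 hm
      rw [mem_Ico] at hm'
      have hPm : P m < P M := P_mono (by omega)
      have hPm1 : P m - 1 ≠ 0 := by omega
      refine ⟨Nat.log 2 (P m - 1), ?_, ?_⟩
      · rw [mem_Icc]
        constructor
        · apply Nat.le_log_of_pow_le (by norm_num)
          omega
        · rw [hκ]
          apply Nat.log_mono_right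
          omega
      · rw [mem_filter]
        refine ⟨hm, ?_, ?_⟩
        · have := Nat.pow_log_le_self 2 hPm1
          omega
        · have := Nat.lt_pow_succ_log_self (b := 2) (by norm_num) (P m - 1)
          rw [pow_succ] at this
          omega
  have hE0 : ((E.filter (fun m => P m ≤ 2 ^ k₁)).card : ℝ) ≤ (2 : ℝ) ^ k₁ + 1 := by
    have h1 : (E.filter (fun m => P m ≤ 2 ^ k₁)).card ≤ (range (2 ^ k₁ + 1)).card := by
      apply card_le_card_of_injOn P
      · intro m hm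
        rw [mem_coe, mem_filter] at hm
        rw [mem_coe, mem_range]
        omega
      · intro x _ y _ hxy
        exact P_mono.injective hxy
    rw [card_range] at h1
    exact_mod_cast h1
  have hEj : ∀ j ∈ Icc k₁ κ, ((E.filter (fun m => 2 ^ j + 1 ≤ P m ∧ P m < 2 * 2 ^ j + 1)).card : ℝ)
      ≤ ε / 18 * Pr (2 ^ j) := by
    intro j hj
    rw [mem_Icc] at hj
    apply h (2 ^ j) (by have := hlt j; omega)
    intro m hm
    rw [mem_filter] at hm
    exact ⟨hm.2.1, hm.2.2, (mem_filter.1 hm.1).2⟩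
  have hsum : ∑ j ∈ Icc k₁ κ, Pr (2 ^ j) ≤ 3 * Pr (2 ^ κ) :=
    geom_sum_pr (fun j hj => (hr j (by omega)).1) κ (by omega)
  have hκ' : κ - 1 + 1 = κ := by omega
  have hlast : Pr (2 ^ κ) ≤ 3 * Pr (2 ^ (κ - 1)) := by
    have := (hr (κ - 1) (by omega)).2
    rwa [hκ'] at this
  have hPrM : Pr (2 ^ (κ - 1)) ≤ M := by
    unfold Pr
    have h2 : ((Ico (2 ^ (κ - 1)) (2 * 2 ^ (κ - 1))).filter Nat.Prime).card ≤
        ((range M).image P).card := by
      apply card_le_card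
      intro q hq
      rw [mem_filter, mem_Ico] at hq
      rw [mem_image]
      refine ⟨Nat.count Nat.Prime q, ?_, P_count hq.2⟩
      rw [mem_range]
      have h3 : P (Nat.count Nat.Prime q) < P M := by
        rw [P_count hq.2]
        have h4 : 2 * 2 ^ (κ - 1) = 2 ^ κ := by
          rw [← pow_succ']
          rw [hκ']
        have h5 : q < 2 ^ κ := by rw [← h4]; exact hq.1.2
        exact lt_of_lt_of_le h5 (hκ1.trans (Nat.sub_le _ _))
      exact P_mono.lt_iff_lt.1 h3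
    have h5 : ((range M).image P).card ≤ M := by
      refine card_image_le.trans ?_
      rw [card_range]
    exact_mod_cast h2.trans h5
  have hEc : (E.card : ℝ) ≤ ((2 : ℝ) ^ k₁ + 1) + ε / 2 * M := by
    have h1 : (E.card : ℝ) ≤ ((E.filter (fun m => P m ≤ 2 ^ k₁)).card : ℝ) +
        ∑ j ∈ Icc k₁ κ,
          ((E.filter (fun m => 2 ^ j + 1 ≤ P m ∧ P m < 2 * 2 ^ j + 1)).card : ℝ) := by
      have h2 := (card_le_card hcover).trans (card_union_le _ _)
      have h3 := h2.trans (Nat.add_le_add_left card_biUnion_le _)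
      exact_mod_cast h3
    refine h1.trans (add_le_add hE0 ?_)
    refine (sum_le_sum hEj).trans ?_
    rw [← mul_sum]
    have h4 : ∑ j ∈ Icc k₁ κ, Pr (2 ^ j) ≤ 9 * M := by linarith
    calc ε / 18 * ∑ j ∈ Icc k₁ κ, Pr (2 ^ j) ≤ ε / 18 * (9 * M) :=
          mul_le_mul_of_nonneg_left h4 (by positivity)
      _ = ε / 2 * M := by ring
  have hfin : (2 : ℝ) ^ k₁ + 1 ≤ ε / 2 * M := by
    rw [div_le_iff₀ (by positivity)] at hM₁
    have h1 : (M₁ : ℝ) ≤ M := by
      have : M₁ ≤ M := by omega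
      exact_mod_cast this
    have h2 : (M₁ : ℝ) * (ε / 2) ≤ M * (ε / 2) := mul_le_mul_of_nonneg_right h1 (by positivity)
    linarith
  have hcnt : (cnt (Bad lam k) 0 M : ℝ) = E.card := by
    rw [hE]
    rfl
  rw [hcnt]
  linarith

open Classical in
/-- Final theorem: for all but a small proportion of the indices `n`, at every scale `k ≥ K` a
positive proportion of the `k` gaps after the `n`-th prime is large. -/
theorem final (lam ε : ℝ) (hlam : 0 < lam) (hε : 0 < ε) : ∃ c : ℝ, 0 < c ∧ ∃ K N₀ : ℕ,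
    ∀ N : ℕ, N₀ ≤ N → (1 - ε) * N ≤ (((range N).filter (fun n => ∀ k : ℕ, K ≤ k →
      c * k ≤ (((range k).filter (fun j => Big lam (n + j))).card : ℝ))).card : ℝ) := by
  obtain ⟨ε', hε'⟩ : ∃ ε' : ℝ, ε' = min (1 / 8) (ε / 4) := ⟨_, rfl⟩
  have hε'0 : 0 < ε' := by rw [hε']; exact lt_min (by norm_num) (by positivity)
  have hε'1 : ε' ≤ 1 / 8 := by rw [hε']; exact min_le_left _ _
  have hε'2 : ε' ≤ ε / 4 := by rw [hε']; exact min_le_right _ _
  obtain ⟨κ, M₀, h⟩ := bad_dens lam ε' hlam hε'0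
  refine ⟨1 / (4 * (κ + 1)), by positivity, 2 * (κ + 1), M₀, fun N hN => ?_⟩
  have hmax := max_ineq (Bad lam κ) ε' hε'0 hε'1 M₀ h N hN
  have hsplit : (((range N).filter (fun n => ∀ k : ℕ, 2 * cnt (Bad lam κ) n k ≤ k)).card : ℝ) +
      (((range N).filter (fun n => ¬ ∀ k : ℕ, 2 * cnt (Bad lam κ) n k ≤ k)).card : ℝ) = N := by
    have := card_filter_add_card_filter_not (s := range N)
      (fun n => ∀ k : ℕ, 2 * cnt (Bad lam κ) n k ≤ k)
    rw [card_range] at this
    exact_mod_cast this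
  have hmono : (((range N).filter (fun n => ∀ k : ℕ, 2 * cnt (Bad lam κ) n k ≤ k)).card : ℝ) ≤
      (((range N).filter (fun n => ∀ k : ℕ, 2 * (κ + 1) ≤ k →
      1 / (4 * ((κ : ℝ) + 1)) * k ≤
        (((range k).filter (fun j => Big lam (n + j))).card : ℝ))).card : ℝ) := by
    have hsub : (range N).filter (fun n => ∀ k : ℕ, 2 * cnt (Bad lam κ) n k ≤ k) ⊆
        (range N).filter (fun n => ∀ k : ℕ, 2 * (κ + 1) ≤ k →
      1 / (4 * ((κ : ℝ) + 1)) * k ≤
        (((range k).filter (fun j => Big lam (n + j))).card : ℝ)) := by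
      intro n hn
      rw [mem_filter] at hn ⊢
      refine ⟨hn.1, fun k hk => ?_⟩
      obtain ⟨l, hl⟩ : ∃ l : ℕ, l = k - κ := ⟨_, rfl⟩
      have h1 := hn.2 l
      -- the indices which are not bad
      set Gd := (Ico n (n + l)).filter (fun m => ¬ Bad lam κ m) with hGd
      have h2 : cnt (Bad lam κ) n l + Gd.card = l := by
        unfold cnt
        have := card_filter_add_card_filter_not (s := Ico n (n + l)) (Bad lam κ)
        rw [Nat.card_Ico] at this
        rw [hGd]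
        omega
      have h3 : Gd ⊆ ((range k).filter (fun j => Big lam (n + j))).biUnion
          (fun j => (range (κ + 1)).image (fun i => n + j - i)) := by
        intro m hm
        rw [hGd, mem_filter, mem_Ico] at hm
        have h4 := hm.2
        unfold Bad at h4
        push Not at h4
        obtain ⟨i, hi, hB⟩ := h4
        rw [mem_biUnion]
        refine ⟨m + i - n, ?_, ?_⟩
        · rw [mem_filter, mem_range]
          have h5 : n + (m + i - n) = m + i := by omega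
          rw [h5]
          exact ⟨by omega, hB⟩
        · rw [mem_image]
          exact ⟨i, mem_range.2 (by omega), by omega⟩
      have h4 : Gd.card ≤ ((range k).filter (fun j => Big lam (n + j))).card * (κ + 1) := by
        refine (card_le_card h3).trans (card_biUnion_le_card_mul _ _ _ fun j _ => ?_)
        refine card_image_le.trans ?_
        rw [card_range]
      have h5 : k ≤ 4 * (((range k).filter (fun j => Big lam (n + j))).card * (κ + 1)) := by
        omega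
      have h6 : (k : ℝ) ≤ 4 * ((((range k).filter (fun j => Big lam (n + j))).card : ℝ) *
          (κ + 1)) := by exact_mod_cast h5
      rw [div_mul_eq_mul_div, one_mul, div_le_iff₀ (by positivity)]
      linarith
    exact_mod_cast card_le_card hsub
  have hN0 : (0 : ℝ) ≤ N := Nat.cast_nonneg N
  have h7 : 4 * ε' * N ≤ ε * N := by
    apply mul_le_mul_of_nonneg_right _ hN0
    linarith
  linarith

end Pool.Agent.Y833.LG
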