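import Pool.Agent.H361R2.PP.Sep
import Pool.Agent.H361R2.PP.Asm2

/-!
The average number of primes in a window after a prime is bounded.
-/

set_option autoImplicit false

open Finset

namespace Pool.Agent.Y833.LG

open Pool.Agent.H361R2.PP
open Pool.Agent.H410R2.AC (wt GG cfg term WW pos Inj coef)

/-- the number of primes after the prime `n + 1` in the window -/
def Nw (N n : ℕ) : ℕ := ((Icc 2 N).filter (fun a => (n + a).Prime)).card

/-- one class -/
theorem pairs_class {δ Λ : ℝ} {X b : ℕ} (hX : 1 ≤ X) (hHX : HH X < X) (hL : 0 < Real.log X)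
    (hΛ : 0 < Λ) (hJ : 2 ^ 2 ^ JJ δ X ≤ X) (hV0 : 0 < VV δ X)
    (hb : 1 ∈ BB X b ⌊Λ * Real.log X⌋₊)
    (hsm : ∀ a ∈ BB X b ⌊Λ * Real.log X⌋₊, ∀ a' ∈ BB X b ⌊Λ * Real.log X⌋₊, a ≠ a' →
      |∑ n ∈ SP X b a, (spec δ (1 / 32) X a' n) ^ 2 -
        Pr X / Nat.totient (Wm X) * (VV δ X * GG (S1 δ (1 / 32) X))| ≤
        1 * (Pr X / Nat.totient (Wm X) * VV δ X))
    (hcB : ((BB X b ⌊Λ * Real.log X⌋₊).card : ℝ) ≤
      2 * (Λ * Real.log X * (Nat.totient (Wm X) / Wm X)))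
    (hVG : VV δ X / GG (S1 δ (1 / 32) X) * (((Nat.totient (Wm X) : ℝ) / Wm X) *
      ((1 / 4 - 3 * (1 / 32)) * Real.log X)) ≤ 1) :
    ∑ n ∈ SP X b 1, (Nw ⌊Λ * Real.log X⌋₊ n : ℝ) ≤ 26 * Λ * (Pr X / Nat.totient (Wm X)) := by
  classical
  set B := BB X b ⌊Λ * Real.log X⌋₊ with hB
  set Ω' := Pr X / Nat.totient (Wm X) with hΩ'
  have hΩ'0 : 0 ≤ Ω' := Om'_nonneg X
  set G := GG (S1 δ (1 / 32) X) with hG
  have hG1 : 1 ≤ G := GG1_ge hX le_rfl
  set v := VV δ X / G with hv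
  have hv0 : 0 ≤ v := div_nonneg hV0.le (by linarith)
  set f := (Nat.totient (Wm X) : ℝ) / Wm X with hf
  set L := Real.log X with hLd
  -- one pair
  have hpair : ∀ a' ∈ B, a' ≠ 1 →
      (((SP X b 1).filter (fun n => (n + a').Prime)).card : ℝ) ≤ 2 * (Ω' * v) := by
    intro a' ha' hne
    have ha1 : 1 ≤ a' := (mem_BB.1 ha').1
    have h1 := (abs_le.1 (hsm 1 hb a' ha' (Ne.symm hne))).2
    have h2 : (((SP X b 1).filter (fun n => (n + a').Prime)).card : ℝ) * G ^ 2 ≤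
        ∑ n ∈ SP X b 1, (spec δ (1 / 32) X a' n) ^ 2 := by
      calc (((SP X b 1).filter (fun n => (n + a').Prime)).card : ℝ) * G ^ 2 =
          ∑ n ∈ (SP X b 1).filter (fun n => (n + a').Prime), (spec δ (1 / 32) X a' n) ^ 2 := by
            rw [← nsmul_eq_mul, ← sum_const]
            refine sum_congr rfl fun n hn => ?_
            rw [mem_filter, mem_SP] at hn
            unfold spec
            rw [rg_prime (P1_lt hJ hn.1.1 ha1) hn.2, FS_prime (P2_lt hn.1.1 ha1) S1_sub hn.2,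
              one_mul]
        _ ≤ _ := sum_le_sum_of_subset_of_nonneg (filter_subset _ _) fun n _ _ => sq_nonneg _
    have h3 : (((SP X b 1).filter (fun n => (n + a').Prime)).card : ℝ) * G ^ 2 ≤
        Ω' * VV δ X * (G + 1) := by linarith
    have h4 : Ω' * VV δ X * (G + 1) ≤ Ω' * VV δ X * (2 * G) := by
      apply mul_le_mul_of_nonneg_left (by linarith)
      exact mul_nonneg hΩ'0 hV0.le
    have h5 : (((SP X b 1).filter (fun n => (n + a').Prime)).card : ℝ) * G ^ 2 ≤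
        2 * (Ω' * v) * G ^ 2 := by
      refine (h3.trans h4).trans (le_of_eq ?_)
      rw [hv]
      have : G ≠ 0 := by linarith
      field_simp
    exact le_of_mul_le_mul_right h5 (by positivity)
  have h1 : ∑ n ∈ SP X b 1, (Nw ⌊Λ * Real.log X⌋₊ n : ℝ) ≤
      ∑ a ∈ B.erase 1, (((SP X b 1).filter (fun n => (n + a).Prime)).card : ℝ) := by
    have e1 : ∀ n ∈ SP X b 1, (Nw ⌊Λ * Real.log X⌋₊ n : ℝ) ≤
        ∑ a ∈ B.erase 1, if (n + a).Prime then (1 : ℝ) else 0 := by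
      intro n hn
      rw [← sum_filter, sum_const, nsmul_eq_mul, mul_one]
      unfold Nw
      have hnS : n ∈ SI X b := SP_sub hn
      have : (Icc 2 ⌊Λ * Real.log X⌋₊).filter (fun a => (n + a).Prime) ⊆
          (B.erase 1).filter (fun a => (n + a).Prime) := by
        intro a ha
        rw [mem_filter, mem_Icc] at ha
        rw [mem_filter, mem_erase]
        exact ⟨⟨by omega, prime_BB hHX hnS (by omega) ha.1.2 ha.2⟩, ha.2⟩
      exact_mod_cast card_le_card this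
    refine (sum_le_sum e1).trans ?_
    rw [sum_comm]
    refine le_of_eq (sum_congr rfl fun a _ => ?_)
    rw [← sum_filter, sum_const, nsmul_eq_mul, mul_one]
  refine h1.trans ?_
  have hT0 : 0 ≤ 2 * (Ω' * v) := mul_nonneg (by norm_num) (mul_nonneg hΩ'0 hv0)
  have hf0 : 0 ≤ f := by rw [hf]; positivity
  have h2 : ∑ a ∈ B.erase 1, (((SP X b 1).filter (fun n => (n + a).Prime)).card : ℝ) ≤
      (B.card : ℝ) * (2 * (Ω' * v)) := by
    calc ∑ a ∈ B.erase 1, (((SP X b 1).filter (fun n => (n + a).Prime)).card : ℝ) ≤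
        ∑ _a ∈ B.erase 1, 2 * (Ω' * v) :=
          sum_le_sum fun a ha => hpair a (mem_of_mem_erase ha) (ne_of_mem_erase ha)
      _ ≤ ∑ _a ∈ B, 2 * (Ω' * v) :=
          sum_le_sum_of_subset_of_nonneg (erase_subset _ _) fun _ _ _ => hT0
      _ = _ := by rw [sum_const, nsmul_eq_mul]
  refine h2.trans ((mul_le_mul_of_nonneg_right hcB hT0).trans ?_)
  have h9 : v * (f * L) ≤ 32 / 5 := by
    have h10 : v * (f * L) * (5 / 32) ≤ 1 := by
      calc v * (f * L) * (5 / 32) = v * (f * ((1 / 4 - 3 * (1 / 32)) * L)) := by ring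
        _ ≤ 1 := hVG
    linarith
  calc 2 * (Λ * L * f) * (2 * (Ω' * v)) = (4 * Λ * Ω') * (v * (f * L)) := by ring
    _ ≤ (4 * Λ * Ω') * (32 / 5) := mul_le_mul_of_nonneg_left h9 (by positivity)
    _ = 128 / 5 * (Λ * Ω') := by ring
    _ ≤ 26 * (Λ * Ω') := mul_le_mul_of_nonneg_right (by norm_num) (by positivity)
    _ = _ := by ring

theorem pairs_sum (Λ : ℝ) (hΛ1 : 1 ≤ Λ) : ∃ X₀ : ℕ, ∀ X : ℕ, X₀ ≤ X →
    ∑ n ∈ (Ico X (2 * X)).filter (fun n => (n + 1).Prime), (Nw ⌊Λ * Real.log X⌋₊ n : ℝ) ≤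
      26 * Λ * Pr X := by
  classical
  have hΛ : 0 < Λ := by linarith
  obtain ⟨δ₀, hδ₀, hsm⟩ := sm 0 (fun i => i.elim0) 1 Λ (1 / 32) 1 (fun i => i.elim0)
    (by rw [univ_eq_empty, sum_empty]; norm_num) (by norm_num) le_rfl le_rfl hΛ one_pos
  obtain ⟨CM, hCM1, hCM⟩ := Pool.Agent.H488R2.mer Pool.Agent.H325R2.wtx
  obtain ⟨δ, hδd⟩ : ∃ δ : ℝ, δ = min δ₀ (1 / 8) := ⟨_, rfl⟩
  have hδ0 : 0 < δ := by rw [hδd]; exact lt_min hδ₀ (by norm_num)
  have hδ1 : δ ≤ δ₀ := by rw [hδd]; exact min_le_left _ _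
  have hδ3 : δ ≤ 1 / 8 := by rw [hδd]; exact min_le_right _ _
  obtain ⟨C, X1, hC, hSMX⟩ := hsm δ hδ0 hδ1
  obtain ⟨X3, hMX⟩ := hCM δ hδ0 (by linarith)
  obtain ⟨X5, hCX⟩ := Pool.Agent.H363R2.PPCnt.cnt 1 Λ Λ one_pos hΛ hΛ
  obtain ⟨X7, hWX⟩ := Pool.Agent.H325R2.wtx.2 δ hδ0 (by linarith)
  obtain ⟨X8, hFX⟩ := log_floor (a := 1 / 4 - 2 * (1 / 32)) (θ := 1 / 32) (by norm_num)
    (by norm_num)
  refine ⟨X1 + X3 + X5 + X7 + X8 + 3, fun X hX => ?_⟩
  have hX3 : 3 ≤ X := by omega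
  have hX1 : 1 ≤ X := by omega
  have hXr : (3 : ℝ) ≤ X := by exact_mod_cast hX3
  have hL1 : 1 ≤ Real.log X := by
    rw [Real.le_log_iff_exp_le (by linarith)]
    have := Real.exp_one_lt_d9
    linarith
  have hL : 0 < Real.log X := by linarith
  have hN1 : 1 ≤ ⌊Λ * Real.log X⌋₊ := by
    apply Nat.le_floor
    push_cast
    nlinarith
  obtain ⟨hw1, -, hw3⟩ := hWX X (by omega)
  have hJ : 2 ^ 2 ^ JJ δ X ≤ X := by
    have h1 : (X : ℝ) ^ δ ≤ (X : ℝ) ^ (1 : ℝ) :=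
      Real.rpow_le_rpow_of_exponent_le (by exact_mod_cast hX1) (by linarith)
    rw [Real.rpow_one] at h1
    exact_mod_cast hw1.trans h1
  have hHX : HH X < X := lt_of_lt_of_le hw3 hJ
  obtain ⟨hV0, hM1, hM2⟩ := hMX X (by omega)
  obtain ⟨hF1, hF2⟩ := hFX X (by omega)
  have hW := Wm_pos X
  have hφ : (0 : ℝ) < Nat.totient (Wm X) := by exact_mod_cast Nat.totient_pos.2 hW
  have h1 : ∑ n ∈ (Ico X (2 * X)).filter (fun n => (n + 1).Prime),
      (Nw ⌊Λ * Real.log X⌋₊ n : ℝ) =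
      ∑ b ∈ range (Wm X), ∑ n ∈ SP X b 1, (Nw ⌊Λ * Real.log X⌋₊ n : ℝ) := by
    rw [← sum_fiberwise_of_maps_to (g := fun n => n % Wm X) (t := range (Wm X))
      (fun n _ => mem_range.2 (Nat.mod_lt _ hW))]
    refine sum_congr rfl fun b _ => ?_
    congr 1
    ext n
    simp only [mem_filter, mem_SP, mem_Ico]
    tauto
  rw [h1]
  have h2 : ∀ b ∈ range (Wm X), ∑ n ∈ SP X b 1, (Nw ⌊Λ * Real.log X⌋₊ n : ℝ) ≤
      if (Wm X).Coprime (b + 1) then 26 * Λ * (Pr X / Nat.totient (Wm X)) else 0 := by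
    intro b hb
    split_ifs with hc
    · have hBB : 1 ∈ BB X b ⌊Λ * Real.log X⌋₊ := by
        rw [mem_BB]
        exact ⟨le_rfl, hN1, hc.symm⟩
      have hb' := mem_range.1 hb
      refine pairs_class (δ := δ) hX1 hHX hL hΛ hJ hV0 hBB ?_ ?_
        (VG_le Pool.Agent.H633R2.ggSharp (by norm_num) le_rfl hX1 hM2 hV0 hF1 hF2)
      · intro a ha a' ha' hne
        have h2 := (hSMX X (by omega) b hb' (D0 δ X) ∅ (empty_subset _) (fun _ => 1)
          (fun σ => by rw [abs_one])).2.2.2.1 a (by rw [sdiff_empty]; exact ha) a'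
          (by rw [sdiff_empty]; exact ha') hne
        simp only [WW_zero, ZZ_zero, mul_one] at h2
        exact h2
      · have h2 := hCX X (by omega) b 0 (Λ * Real.log X) le_rfl (by rw [zero_add]) le_rfl
        rw [sub_zero] at h2
        have h3 : (BB X b ⌊Λ * Real.log X⌋₊).filter
            (fun a : ℕ => (0 : ℝ) < a ∧ (a : ℝ) ≤ Λ * Real.log X) =
            BB X b ⌊Λ * Real.log X⌋₊ := by
          apply filter_true_of_mem
          intro a ha
          rw [mem_BB] at ha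
          refine ⟨by exact_mod_cast ha.1, ?_⟩
          exact (Nat.le_floor_iff (by positivity)).1 ha.2.1
        rw [h3] at h2
        linarith [(abs_le.1 h2).2]
    · have h3 : SP X b 1 = ∅ := by
        rw [SP_eq, filter_eq_empty_iff]
        intro n hn hE
        have := prime_BB (N := ⌊Λ * Real.log X⌋₊) hHX hn le_rfl hN1 hE
        rw [mem_BB] at this
        exact hc this.2.2.symm
      rw [h3]
      simp
  have h5 : ((range (Wm X)).filter (fun b => (Wm X).Coprime (b + 1))).card =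
      Nat.totient (Wm X) := by
    rw [← Nat.filter_coprime_Ico_eq_totient (Wm X) 1]
    apply card_bij (fun b _ => b + 1)
    · intro b hb
      rw [mem_filter, mem_range] at hb
      rw [mem_filter, mem_Ico]
      exact ⟨⟨by omega, by omega⟩, hb.2⟩
    · intro b _ b' _ hbb
      omega
    · intro x hx
      rw [mem_filter, mem_Ico] at hx
      refine ⟨x - 1, ?_, by omega⟩
      rw [mem_filter, mem_range]
      have : x - 1 + 1 = x := by omega
      rw [this]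
      exact ⟨by omega, hx.2⟩
  refine (sum_le_sum h2).trans ?_
  rw [← sum_filter, sum_const, h5, nsmul_eq_mul]
  apply le_of_eq
  field_simp

end Pool.Agent.Y833.LG
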