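import Pool.Agent.Y833.LG.Main
import Pool.Agent.Y833.LG.Pairs
import Pool.Agent.H30R2.PP.Rat

/-!
From integers to indices of primes: in a dyadic interval, for almost all indices `m` one of the
gaps with the indices `m, …, m + k` is large.
-/

set_option autoImplicit false

open Finset

namespace Pool.Agent.Y833.LG

open Pool.Agent.H361R2.PP
open Pool.Agent.H30R2.PP (P_mono P_prime P_succ_le)

/-- the gap with index `m` is large -/
def Big (lam : ℝ) (m : ℕ) : Prop := lam * Real.log (P m) ≤ (P (m + 1) : ℝ) - P m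

/-- the gaps with the indices `m, …, m + k` are not large -/
def Bad (lam : ℝ) (k m : ℕ) : Prop := ∀ i ≤ k, ¬ Big lam (m + i)

theorem gap_lemma {m n N : ℕ} {y z : ℝ} (hn : n + 1 = P m) (hy : 0 ≤ y) (hyz : y ≤ z)
    (hN : y + 1 ≤ N)
    (hno : ∀ a : ℕ, 1 + y < a → (a : ℝ) ≤ 1 + z → ¬ (n + a).Prime) :
    ∃ i ≤ Nw N n, (P (m + i) : ℝ) ≤ P m + y ∧ (P m : ℝ) + z < P (m + i + 1) := by
  classical
  have hPm : (P m : ℝ) = n + 1 := by exact_mod_cast hn.symm
  have hex : ∃ i : ℕ, (P m : ℝ) + y < P (m + i + 1) := by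
    obtain ⟨i, hi⟩ := exists_nat_gt ((P m : ℝ) + y)
    refine ⟨i, hi.trans_le ?_⟩
    have h1 : i ≤ P (m + i + 1) := by
      have := P_mono.le_apply (x := m + i + 1)
      omega
    exact_mod_cast h1
  obtain ⟨i, hi, hmin⟩ : ∃ i : ℕ, (P m : ℝ) + y < P (m + i + 1) ∧
      ∀ i' < i, ¬ ((P m : ℝ) + y < P (m + i' + 1)) :=
    ⟨Nat.find hex, Nat.find_spec hex, fun i' hi' => Nat.find_min hex hi'⟩
  have hle : ∀ i' ≤ i, (P (m + i') : ℝ) ≤ P m + y := by
    intro i' hi'
    rcases Nat.eq_zero_or_pos i' with h0 | h0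
    · rw [h0, add_zero]
      linarith
    · have h1 := hmin (i' - 1) (by omega)
      have h2 : m + (i' - 1) + 1 = m + i' := by omega
      rw [h2] at h1
      exact not_lt.1 h1
  refine ⟨i, ?_, hle i le_rfl, ?_⟩
  · -- the primes in between
    have hinj : ((Icc 1 i).image (fun i' => P (m + i') - n)).card = i := by
      rw [card_image_of_injOn]
      · rw [Nat.card_Icc]; omega
      · intro x hx y hy hxy
        rw [coe_Icc, Set.mem_Icc] at hx hy
        have h1 : P m < P (m + x) := P_mono (by omega)
        have h2 : P m < P (m + y) := P_mono (by omega)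
        have h3 : P (m + x) = P (m + y) := by
          simp only at hxy
          omega
        have := P_mono.injective h3
        omega
    rw [← hinj]
    unfold Nw
    apply card_le_card
    intro a ha
    rw [mem_image] at ha
    obtain ⟨i', hi', rfl⟩ := ha
    rw [mem_Icc] at hi'
    have h1 : P m < P (m + i') := P_mono (by omega)
    have h2 := hle i' hi'.2
    rw [mem_filter, mem_Icc]
    refine ⟨⟨by omega, ?_⟩, ?_⟩
    · have h3 : (P (m + i') : ℝ) ≤ (N + n : ℕ) := by
        push_cast
        linarith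
      have h4 : P (m + i') ≤ N + n := by exact_mod_cast h3
      omega
    · have h3 : n + (P (m + i') - n) = P (m + i') := by omega
      rw [h3]
      exact P_prime _
  · by_contra hcon
    push Not at hcon
    have h1 : n ≤ P (m + i + 1) := by
      have : P m ≤ P (m + i + 1) := P_mono.monotone (by omega)
      omega
    apply hno (P (m + i + 1) - n)
    · rw [Nat.cast_sub h1]
      linarith
    · rw [Nat.cast_sub h1]
      linarith
    · have h3 : n + (P (m + i + 1) - n) = P (m + i + 1) := by omega
      rw [h3]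
      exact P_prime _

theorem dyad (lam ε : ℝ) (hlam : 0 < lam) (hε : 0 < ε) : ∃ k : ℕ, ∃ X₀ : ℕ, ∀ X : ℕ, X₀ ≤ X →
    ∀ E : Finset ℕ, (∀ m ∈ E, X + 1 ≤ P m ∧ P m < 2 * X + 1 ∧ Bad lam k m) →
    (E.card : ℝ) ≤ ε * Pr X := by
  classical
  obtain ⟨K, hK, X1, h1⟩ := step1 (2 * lam) (ε / 2) (by positivity) (by positivity)
  obtain ⟨Λ, hΛ⟩ : ∃ Λ : ℝ, Λ = K * (2 * lam) + 1 := ⟨_, rfl⟩
  have hΛ1 : 1 ≤ Λ := by
    rw [hΛ]
    have : (0 : ℝ) ≤ K * (2 * lam) := by positivity
    linarith
  obtain ⟨X2, h2⟩ := pairs_sum Λ hΛ1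
  obtain ⟨k, hk⟩ := exists_nat_ge (26 * Λ / (ε / 2))
  have hev := (Pool.Agent.H862R2.PPSm5.logs_small Λ)
  obtain ⟨X3, h3⟩ := Filter.eventually_atTop.1 hev
  refine ⟨k, X1 + X2 + X3 + 8, fun X hX E hE => ?_⟩
  have hX8 : 8 ≤ X := by omega
  have hX3 : 3 ≤ X := by omega
  have hXr : (3 : ℝ) ≤ X := by exact_mod_cast hX3
  have hL1 : 1 ≤ Real.log X := by
    rw [Real.le_log_iff_exp_le (by linarith)]
    have := Real.exp_one_lt_d9
    linarith
  have hL2 : 2 ≤ Real.log X := by
    have h4 : Real.log 8 ≤ Real.log X := Real.log_le_log (by norm_num) (by exact_mod_cast hX8)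
    have h5 : Real.log 8 = 3 * Real.log 2 := by
      rw [show (8 : ℝ) = 2 ^ 3 by norm_num, Real.log_pow]
      norm_num
    have := Real.log_two_gt_d9
    linarith
  have hΛX : Λ * Real.log X ≤ X := h3 X (by omega)
  set N := ⌊Λ * Real.log X⌋₊ with hN
  -- the two kinds of exceptions
  have hsub : E.image (fun m => P m - 1) ⊆
      ((E.image (fun m => P m - 1)).filter (fun n => Exc X K (2 * lam) n)) ∪
      (((Ico X (2 * X)).filter (fun n => (n + 1).Prime)).filter (fun n => k + 1 ≤ Nw N n)) := by
    intro n hn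
    rw [mem_union, mem_filter, mem_filter]
    by_cases hEx : Exc X K (2 * lam) n
    · exact Or.inl ⟨hn, hEx⟩
    · right
      rw [mem_image] at hn
      obtain ⟨m, hm, hmn⟩ := hn
      obtain ⟨hm1, hm2, hm3⟩ := hE m hm
      have hn1 : n + 1 = P m := by omega
      have hnp : (n + 1).Prime := by rw [hn1]; exact P_prime m
      refine ⟨?_, ?_⟩
      · rw [mem_filter, mem_Ico]
        exact ⟨⟨by omega, by omega⟩, hnp⟩
      · by_contra hcon
        unfold Exc at hEx
        push Not at hEx
        obtain ⟨j, hj, hno⟩ := hEx hnp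
        have hj0 : (0 : ℝ) ≤ j * (2 * lam * Real.log X) := by positivity
        have hjK : ((j : ℝ) + 1) * (2 * lam * Real.log X) ≤ K * (2 * lam * Real.log X) := by
          apply mul_le_mul_of_nonneg_right _ (by positivity)
          exact_mod_cast hj
        have hl0 : 0 < 2 * lam * Real.log X := by positivity
        have hKΛ : K * (2 * lam * Real.log X) + Real.log X = Λ * Real.log X := by
          rw [hΛ]
          ring
        have hNlow : Λ * Real.log X - 1 < N := by
          have := Nat.lt_floor_add_one (Λ * Real.log X)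
          rw [← hN] at this
          linarith
        obtain ⟨i, hi, hi1, hi2⟩ := gap_lemma (N := N) (y := j * (2 * lam * Real.log X))
          (z := (j + 1) * (2 * lam * Real.log X)) hn1 hj0 (by linarith)
          (by
            have h4 : (j : ℝ) * (2 * lam * Real.log X) + 1 ≤ N := by
              linarith
            exact h4) (fun a ha1 ha2 => hno a ha1 ha2)
        apply hm3 i (by omega)
        unfold Big
        have h6 : (P (m + i) : ℝ) ≤ X ^ 2 := by
          have h7 : (P m : ℝ) < 2 * X + 1 := by exact_mod_cast hm2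
          nlinarith
        have h8 : Real.log (P (m + i)) ≤ 2 * Real.log X := by
          have h9 : (0 : ℝ) < P (m + i) := by exact_mod_cast (P_prime (m + i)).pos
          calc Real.log (P (m + i)) ≤ Real.log ((X : ℝ) ^ 2) := Real.log_le_log h9 h6
            _ = 2 * Real.log X := by rw [Real.log_pow]; norm_num
        have h10 : lam * Real.log (P (m + i)) ≤ lam * (2 * Real.log X) :=
          mul_le_mul_of_nonneg_left h8 hlam.le
        nlinarith
  have hcard1 : ((((E.image (fun m => P m - 1)).filter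
      (fun n => Exc X K (2 * lam) n))).card : ℝ) ≤ ε / 2 * Pr X := by
    apply h1 X (by omega)
    intro n hn
    rw [mem_filter, mem_image] at hn
    obtain ⟨⟨m, hm, hmn⟩, hEx⟩ := hn
    obtain ⟨hm1, hm2, -⟩ := hE m hm
    rw [mem_Ico]
    exact ⟨⟨by omega, by omega⟩, hEx⟩
  have hPr0 : 0 ≤ Pr X := by unfold Pr; positivity
  have hcard2 : (((((Ico X (2 * X)).filter (fun n => (n + 1).Prime)).filter
      (fun n => k + 1 ≤ Nw N n))).card : ℝ) ≤ ε / 2 * Pr X := by
    have h4 := h2 X (by omega)
    rw [← hN] at h4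
    have h5 : (((((Ico X (2 * X)).filter (fun n => (n + 1).Prime)).filter
      (fun n => k + 1 ≤ Nw N n))).card : ℝ) * (k + 1) ≤ 26 * Λ * Pr X := by
      refine le_trans ?_ h4
      calc (((((Ico X (2 * X)).filter (fun n => (n + 1).Prime)).filter
            (fun n => k + 1 ≤ Nw N n))).card : ℝ) * (k + 1) =
          ∑ n ∈ ((Ico X (2 * X)).filter (fun n => (n + 1).Prime)).filter
            (fun n => k + 1 ≤ Nw N n), ((k : ℝ) + 1) := by rw [sum_const, nsmul_eq_mul]
        _ ≤ ∑ n ∈ ((Ico X (2 * X)).filter (fun n => (n + 1).Prime)).filter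
            (fun n => k + 1 ≤ Nw N n), (Nw N n : ℝ) := by
            refine sum_le_sum fun n hn => ?_
            exact_mod_cast (mem_filter.1 hn).2
        _ ≤ _ := sum_le_sum_of_subset_of_nonneg (filter_subset _ _) fun _ _ _ =>
            Nat.cast_nonneg _
    rw [div_le_iff₀ (by positivity)] at hk
    have hk1 : (0 : ℝ) < k + 1 := by positivity
    refine le_of_mul_le_mul_right (h5.trans ?_) hk1
    calc 26 * Λ * Pr X ≤ (k * (ε / 2)) * Pr X := mul_le_mul_of_nonneg_right hk hPr0
      _ ≤ ((k + 1) * (ε / 2)) * Pr X := by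
          apply mul_le_mul_of_nonneg_right _ hPr0
          apply mul_le_mul_of_nonneg_right _ (by positivity)
          linarith
      _ = _ := by ring
  have hEi : (E.image (fun m => P m - 1)).card = E.card := by
    apply card_image_of_injOn
    intro x hx y hy hxy
    have hx1 := (P_prime x).pos
    have hy1 := (P_prime y).pos
    simp only at hxy
    have : P x = P y := by omega
    exact P_mono.injective this
  rw [← hEi]
  have h6 : ((E.image (fun m => P m - 1)).card : ℝ) ≤
      ((((E.image (fun m => P m - 1)).filter (fun n => Exc X K (2 * lam) n))).card : ℝ) +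
      (((((Ico X (2 * X)).filter (fun n => (n + 1).Prime)).filter
        (fun n => k + 1 ≤ Nw N n))).card : ℝ) := by
    exact_mod_cast (card_le_card hsub).trans (card_union_le _ _)
  linarith

end Pool.Agent.Y833.LG
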