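import Pool.Agent.Y833.LG.Cls

/-!
For almost all primes `p` in a dyadic interval, one of the first `K` blocks of length
`lam * log X` after `p` contains no prime.
-/

set_option autoImplicit false

open Finset

namespace Pool.Agent.Y833.LG

open Pool.Agent.H361R2.PP
open Pool.Agent.H410R2.AC (wt GG cfg term WW pos Inj coef)

/-- the surviving shifts in the `j`-th block -/
noncomputable def Blk (X b : ℕ) (Λ lam : ℝ) (j : ℕ) : Finset ℕ :=
  (BB X b ⌊Λ * Real.log X⌋₊).filter (fun a : ℕ => 1 + j * (lam * Real.log X) < a ∧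
    (a : ℝ) ≤ 1 + (j + 1) * (lam * Real.log X))

theorem blk_disj {X b : ℕ} {Λ lam : ℝ} (hlam : 0 < lam) (hL : 0 < Real.log X) {i j : ℕ}
    (hij : i ≠ j) : Disjoint (Blk X b Λ lam i) (Blk X b Λ lam j) := by
  have key : ∀ i j : ℕ, i < j → ∀ a ∈ Blk X b Λ lam i, a ∉ Blk X b Λ lam j := by
    intro i j h a hi hj
    unfold Blk at hi hj
    rw [mem_filter] at hi hj
    have h1 : ((i : ℝ) + 1) * (lam * Real.log X) ≤ (j : ℝ) * (lam * Real.log X) := by
      apply mul_le_mul_of_nonneg_right _ (by positivity)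
      exact_mod_cast h
    linarith [hi.2.2, hj.2.1]
  rw [disjoint_left]
  intro a hi hj
  rcases Nat.lt_or_gt_of_ne hij with h | h
  · exact key i j h a hi hj
  · exact key j i h a hj hi

/-- exceptional integers: `n + 1` is prime and all the blocks after it contain primes -/
def Exc (X K : ℕ) (lam : ℝ) (n : ℕ) : Prop :=
  (n + 1).Prime ∧ ∀ j < K, ∃ a : ℕ, 1 + j * (lam * Real.log X) < a ∧
    (a : ℝ) ≤ 1 + (j + 1) * (lam * Real.log X) ∧ (n + a).Prime

open Classical in
theorem sum_exc (X K : ℕ) (lam Λ ε : ℝ) (hlam : 0 < lam) (hL : 1 ≤ Real.log X)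
    (hΛ : Λ = K * lam + 1) (hHX : HH X < X)
    (h : ∀ b < Wm X, 1 ∈ BB X b ⌊Λ * Real.log X⌋₊ →
      (((SP X b 1).filter (fun n => ∀ j < K, Np (Blk X b Λ lam j) n ≠ 0)).card : ℝ) ≤
        ε * (Pr X / Nat.totient (Wm X))) :
    (((Ico X (2 * X)).filter (fun n => Exc X K lam n)).card : ℝ) ≤ ε * Pr X := by
  have hW := Wm_pos X
  have hφ : (0 : ℝ) < Nat.totient (Wm X) := by exact_mod_cast Nat.totient_pos.2 hW
  have hN1 : 1 ≤ ⌊Λ * Real.log X⌋₊ := by
    apply Nat.le_floor
    rw [hΛ]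
    have : (0 : ℝ) ≤ K * lam := by positivity
    push_cast
    nlinarith
  have h1 : ((Ico X (2 * X)).filter (fun n => Exc X K lam n)).card =
      ∑ b ∈ range (Wm X), ((SI X b).filter (fun n => Exc X K lam n)).card := by
    rw [card_eq_sum_card_fiberwise (f := fun n => n % Wm X) (t := range (Wm X))]
    · refine sum_congr rfl fun b _ => ?_
      congr 1
      ext n
      simp only [mem_filter, mem_SI, mem_Ico]
      tauto
    · intro n _
      simp only [coe_range, Set.mem_Iio]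
      exact Nat.mod_lt _ hW
  have h2 : ∀ b ∈ range (Wm X), (((SI X b).filter (fun n => Exc X K lam n)).card : ℝ) ≤
      if (Wm X).Coprime (b + 1) then ε * (Pr X / Nat.totient (Wm X)) else 0 := by
    intro b hb
    split_ifs with hc
    · have hBB : 1 ∈ BB X b ⌊Λ * Real.log X⌋₊ := by
        rw [mem_BB]
        exact ⟨le_rfl, hN1, hc.symm⟩
      refine le_trans ?_ (h b (mem_range.1 hb) hBB)
      have h3 : (SI X b).filter (fun n => Exc X K lam n) ⊆
          (SP X b 1).filter (fun n => ∀ j < K, Np (Blk X b Λ lam j) n ≠ 0) := by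
        intro n hn
        rw [mem_filter] at hn ⊢
        obtain ⟨hn1, hn2, hn3⟩ := hn
        refine ⟨?_, ?_⟩
        · rw [SP_eq, mem_filter]
          exact ⟨hn1, hn2⟩
        · intro j hj
          obtain ⟨a, ha1, ha2, ha3⟩ := hn3 j hj
          have hja : (0 : ℝ) ≤ j * (lam * Real.log X) := by positivity
          have ha0 : 1 ≤ a := by
            have : (1 : ℝ) < a := by linarith
            have : 1 < a := by exact_mod_cast this
            omega
          have haN : a ≤ ⌊Λ * Real.log X⌋₊ := by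
            apply Nat.le_floor
            refine ha2.trans ?_
            have h4 : ((j : ℝ) + 1) * (lam * Real.log X) ≤ K * (lam * Real.log X) := by
              apply mul_le_mul_of_nonneg_right _ (by positivity)
              exact_mod_cast hj
            rw [hΛ]
            nlinarith
          unfold Np
          rw [← Nat.pos_iff_ne_zero, card_pos]
          refine ⟨a, ?_⟩
          rw [mem_filter]
          unfold Blk
          rw [mem_filter]
          exact ⟨⟨prime_BB hHX hn1 ha0 haN ha3, ha1, ha2⟩, ha3⟩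
      exact_mod_cast card_le_card h3
    · have h3 : (SI X b).filter (fun n => Exc X K lam n) = ∅ := by
        rw [filter_eq_empty_iff]
        intro n hn hE
        have := prime_BB (N := ⌊Λ * Real.log X⌋₊) hHX hn le_rfl hN1 hE.1
        rw [mem_BB] at this
        exact hc this.2.2.symm
      rw [h3]
      simp
  have h5 : ((range (Wm X)).filter (fun b => (Wm X).Coprime (b + 1))).card =
      Nat.totient (Wm X) := by
    rw [← Nat.filter_coprime_Ico_eq_totient (Wm X) 1]
    apply card_bij (fun b _ => b + 1)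
    · intro b hb
      rw [mem_filter, mem_range] at hb
      rw [mem_filter, mem_Ico]
      exact ⟨⟨by omega, by omega⟩, hb.2⟩
    · intro b _ b' _ hbb
      omega
    · intro x hx
      rw [mem_filter, mem_Ico] at hx
      refine ⟨x - 1, ?_, by omega⟩
      rw [mem_filter, mem_range]
      have : x - 1 + 1 = x := by omega
      rw [this]
      exact ⟨by omega, hx.2⟩
  rw [h1]
  push_cast
  refine (sum_le_sum h2).trans ?_
  rw [← sum_filter, sum_const, h5, nsmul_eq_mul]
  apply le_of_eq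
  field_simp

theorem step1 (lam ε : ℝ) (hlam : 0 < lam) (hε : 0 < ε) : ∃ K : ℕ, 0 < K ∧ ∃ X₀ : ℕ, ∀ X : ℕ,
    X₀ ≤ X → ∀ E : Finset ℕ, (∀ n ∈ E, n ∈ Ico X (2 * X) ∧ Exc X K lam n) →
    (E.card : ℝ) ≤ ε * Pr X := by
  classical
  obtain ⟨s, hsd⟩ : ∃ s : ℝ, s = ε / (2 * (4 + 39 * lam)) := ⟨_, rfl⟩
  have hs0 : 0 < s := by rw [hsd]; positivity
  obtain ⟨θ, hθ⟩ : ∃ θ : ℝ, θ = 1 / 32 := ⟨_, rfl⟩
  have hθ0 : 0 < θ := by rw [hθ]; norm_num
  have hθ1 : θ ≤ 1 / 32 := by rw [hθ]
  obtain ⟨CT, hCT1, hCT⟩ := Pool.Agent.H488R2.ggtypes Pool.Agent.H325R2.wtx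
  obtain ⟨CM, hCM1, hCM⟩ := Pool.Agent.H488R2.mer Pool.Agent.H325R2.wtx
  obtain ⟨η', hη'⟩ : ∃ η' : ℝ, η' = s / (4 * lam * CM) := ⟨_, rfl⟩
  have hη'0 : 0 < η' := by rw [hη']; positivity
  obtain ⟨t, u, β, V₀, hV₀, huβ, hβ1, hu, hty⟩ :=
    Pool.Agent.H708R2.types CT η' (θ / 4) hCT1 hη'0 (by linarith)
  obtain ⟨δ₀, hδ₀, hmom⟩ := momR t u lam θ s (fun τ => (huβ τ).1) hu hθ0 hθ1 hlam hs0
  obtain ⟨dβ, hdβ0, hdβ⟩ : ∃ d : ℝ, 0 < d ∧ ∀ τ, d ≤ β τ / η' := by
    refine ⟨1 / (∑ τ, η' / β τ + 1), ?_, fun τ => ?_⟩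
    · have : 0 ≤ ∑ τ, η' / β τ := sum_nonneg fun τ _ => (div_pos hη'0 (huβ τ).2).le
      positivity
    · have h1 : η' / β τ ≤ ∑ τ, η' / β τ :=
        single_le_sum (f := fun τ => η' / β τ) (fun τ _ => (div_pos hη'0 (huβ τ).2).le)
          (mem_univ τ)
      have h2 : 0 < η' / β τ := div_pos hη'0 (huβ τ).2
      calc 1 / (∑ τ, η' / β τ + 1) ≤ 1 / (η' / β τ) :=
            one_div_le_one_div_of_le h2 (by linarith)
        _ = β τ / η' := by rw [one_div_div]
  obtain ⟨δ, hδd⟩ : ∃ δ : ℝ, δ = min (min δ₀ V₀) (min (1 / 8) dβ) := ⟨_, rfl⟩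
  have hδ0 : 0 < δ := by
    rw [hδd]
    exact lt_min (lt_min hδ₀ hV₀) (lt_min (by norm_num) hdβ0)
  have hδ1 : δ ≤ δ₀ := by rw [hδd]; exact (min_le_left _ _).trans (min_le_left _ _)
  have hδ2 : δ ≤ V₀ := by rw [hδd]; exact (min_le_left _ _).trans (min_le_right _ _)
  have hδ3 : δ ≤ 1 / 8 := by rw [hδd]; exact (min_le_right _ _).trans (min_le_left _ _)
  have hδ4 : δ ≤ dβ := by rw [hδd]; exact (min_le_right _ _).trans (min_le_right _ _)
  obtain ⟨C, hC, hmomC⟩ := hmom δ hδ0 hδ1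
  obtain ⟨K, hK⟩ := exists_nat_ge (2 * C / ε)
  obtain ⟨K', hK'⟩ : ∃ K' : ℕ, K' = K + 1 := ⟨_, rfl⟩
  have hK'0 : 0 < K' := by omega
  have hK'r : (0 : ℝ) < K' := by exact_mod_cast hK'0
  have hCK : C / K' ≤ ε / 2 := by
    rw [div_le_iff₀ hK'r]
    rw [div_le_iff₀ hε] at hK
    rw [hK']
    push_cast
    nlinarith
  obtain ⟨Λ, hΛd⟩ : ∃ Λ : ℝ, Λ = K' * lam + 1 := ⟨_, rfl⟩
  have hΛ : 0 < Λ := by rw [hΛd]; positivity
  obtain ⟨X1, hmomX⟩ := hmomC Λ hΛ
  obtain ⟨X2, hGX⟩ := hCT δ hδ0 hδ3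
  obtain ⟨X3, hMX⟩ := hCM δ hδ0 (by linarith)
  obtain ⟨X5, hCX⟩ := Pool.Agent.H363R2.PPCnt.cnt 1 lam Λ one_pos hlam hΛ
  obtain ⟨X7, hWX⟩ := Pool.Agent.H325R2.wtx.2 δ hδ0 (by linarith)
  obtain ⟨X8, hFX⟩ := log_floor (a := 1 / 4 - 2 * θ) (θ := θ) (by linarith) hθ0
  refine ⟨K', hK'0, X1 + X2 + X3 + X5 + X7 + X8 + 3, fun X hX E hE => ?_⟩
  have hX3 : 3 ≤ X := by omega
  have hX1 : 1 ≤ X := by omega
  have hXr : (3 : ℝ) ≤ X := by exact_mod_cast hX3
  have hL1 : 1 ≤ Real.log X := by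
    rw [Real.le_log_iff_exp_le (by linarith)]
    have := Real.exp_one_lt_d9
    linarith
  have hL : 0 < Real.log X := by linarith
  obtain ⟨hw1, -, hw3⟩ := hWX X (by omega)
  have hJ : 2 ^ 2 ^ JJ δ X ≤ X := by
    have h1 : (X : ℝ) ^ δ ≤ (X : ℝ) ^ (1 : ℝ) :=
      Real.rpow_le_rpow_of_exponent_le (by exact_mod_cast hX1) (by linarith)
    rw [Real.rpow_one] at h1
    exact_mod_cast hw1.trans h1
  have hHX : HH X < X := lt_of_lt_of_le hw3 hJ
  obtain ⟨hV0, hM1, hM2⟩ := hMX X (by omega)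
  obtain ⟨hF1, hF2⟩ := hFX X (by omega)
  have hcardE : (E.card : ℝ) ≤
      (((Ico X (2 * X)).filter (fun n => Exc X K' lam n)).card : ℝ) := by
    exact_mod_cast card_le_card (fun n hn => mem_filter.2 (hE n hn))
  refine hcardE.trans ?_
  apply sum_exc X K' lam Λ ε hlam hL1 hΛd hHX
  intro b hb hb1
  -- families
  obtain ⟨S, hS1, hS2, hS3, hS4⟩ := fam_of (X := X) (T := θ / 4) hδ0 hL (by linarith)
    (hty δ · · · hδ0 hδ2) (hGX X (by omega))
  have hG0 : ∀ τ, 0 < GG (S τ) := fun τ =>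
    lt_of_lt_of_le (by have := (huβ τ).2; positivity) (hS4 τ)
  let D : Dat t u 1 δ X :=
    { S := S
      g := fun τ => β τ / GG (S τ)
      cf := fun _ => -1
      hS := hS1
      h0 := hS2
      hd := hS3
      hg := by
        intro τ
        have h1 := (huβ τ).2
        refine ⟨(div_pos h1 (hG0 τ)).le, ?_⟩
        rw [div_le_one (hG0 τ)]
        refine le_trans ?_ (hS4 τ)
        rw [le_div_iff₀ (by positivity)]
        have h2 := hδ4.trans (hdβ τ)
        rw [le_div_iff₀ hη'0] at h2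
        nlinarith
      hc := by
        intro a
        rw [abs_neg, abs_one] }
  have hV0' : 0 < VV δ X := hV0
  have hrep : Rep β D :=
    { β0 := fun τ => (huβ τ).2.le
      β1 := hβ1
      gg := hG0
      g := fun τ => rfl
      cf := fun _ => rfl
      pJ := hJ
      v0 := hV0'.le }
  have hqq : ∀ τ a, qq D τ a ≤ η' * δ * VV δ X := by
    intro τ a
    have h1 : qq D τ a = (β τ ^ 2 / GG (S τ)) * VV δ X := by
      change (-1 : ℝ) ^ 2 * ((β τ / GG (S τ)) ^ 2 * (VV δ X * GG (S τ))) = _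
      have := (hG0 τ).ne'
      field_simp
    rw [h1]
    have h2 : β τ ^ 2 / GG (S τ) ≤ η' * δ := by
      rw [div_le_iff₀ (hG0 τ)]
      have := hS4 τ
      rw [div_le_iff₀ (by positivity)] at this
      linarith
    exact mul_le_mul_of_nonneg_right h2 hV0'.le
  have hBsub : ∀ j < K', Blk X b Λ lam j ⊆ BB X b ⌊Λ * Real.log X⌋₊ := by
    intro j _
    unfold Blk
    exact filter_subset _ _
  have hBc : ∀ j < K', ((Blk X b Λ lam j).card : ℝ) ≤
      2 * (lam * Real.log X * (Nat.totient (Wm X) / Wm X)) := by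
    intro j hj
    have hja : (0 : ℝ) ≤ j * (lam * Real.log X) := by positivity
    have h4 : ((j : ℝ) + 1) * (lam * Real.log X) ≤ K' * (lam * Real.log X) := by
      apply mul_le_mul_of_nonneg_right _ (by positivity)
      exact_mod_cast hj
    have h1 := hCX X (by omega) b (1 + j * (lam * Real.log X)) (1 + (j + 1) * (lam * Real.log X))
      (by linarith) (by linarith) (by rw [hΛd]; nlinarith)
    have h2 : 1 + ((j : ℝ) + 1) * (lam * Real.log X) - (1 + j * (lam * Real.log X)) =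
      lam * Real.log X := by ring
    rw [h2] at h1
    have h3 := (abs_le.1 h1).2
    unfold Blk
    linarith
  have h39 : 4 * s + 2 * (13 * lam * (s / 2 + s)) + C / K' ≤ ε := by
    have h1 : 4 * s + 2 * (13 * lam * (s / 2 + s)) = (4 + 39 * lam) * s := by ring
    rw [h1]
    have h2 : (4 + 39 * lam) * s = ε / 2 := by
      rw [hsd]
      field_simp
    rw [h2]
    linarith
  have hcls := cls_one hrep hX1 hL (Λ := Λ) (lam := lam) (θ := θ) (s := s) (η := s / 2) (C := C)
    hlam hθ1 hs0.le (by linarith) hC.le (b := b) (a₀ := 1) K' hK'0 (Blk X b Λ lam) hBsub hBc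
    (by
      intro j _ hmem
      unfold Blk at hmem
      rw [mem_filter] at hmem
      have hja : (0 : ℝ) ≤ j * (lam * Real.log X) := by positivity
      have := hmem.2.1
      push_cast at this
      linarith)
    (fun i _ j _ hij => blk_disj hlam hL hij)
    (by
      intro j hj τ
      calc ∑ a ∈ Blk X b Λ lam j, qq D τ a ≤ ∑ a ∈ Blk X b Λ lam j, η' * δ * VV δ X :=
            sum_le_sum fun a _ => hqq τ a
        _ = ((Blk X b Λ lam j).card : ℝ) * (η' * δ * VV δ X) := by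
            rw [sum_const, nsmul_eq_mul]
        _ ≤ 2 * (lam * Real.log X * (Nat.totient (Wm X) / Wm X)) * (η' * δ * VV δ X) :=
            mul_le_mul_of_nonneg_right (hBc j hj) (by positivity)
        _ = 2 * lam * η' *
              (VV δ X * ((Nat.totient (Wm X) : ℝ) / Wm X) * (δ * Real.log X)) := by ring
        _ ≤ 2 * lam * η' * CM :=
            mul_le_mul_of_nonneg_left hM1 (by positivity)
        _ = s / 2 := by
            rw [hη']
            field_simp
            ring)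
    (VG_le Pool.Agent.H633R2.ggSharp hθ0 hθ1 hX1 hM2 hV0' hF1 hF2)
    (hmomX X (by omega) b hb D (fun _ => rfl) 1 hb1).1
    (hmomX X (by omega) b hb D (fun _ => rfl) 1 hb1).2
  refine hcls.trans ?_
  exact mul_le_mul_of_nonneg_right h39 (Om'_nonneg X)

end Pool.Agent.Y833.LG
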